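import Pool.Agent.H6.MS.Defs

/-!
# Elementary facts about `dd`
-/

set_option autoImplicit false

namespace Pool.Agent.H6.MS

open Real

lemma dd_eq (t : ℝ) : dd t = (2 * |sin (π * t)|) ^ 2 := by
  have h : cos (2 * π * t) = 1 - 2 * sin (π * t) ^ 2 := by
    have h1 := cos_two_mul (π * t)
    have h2 := sin_sq_add_cos_sq (π * t)
    have h3 : 2 * π * t = 2 * (π * t) := by ring
    rw [h3, h1]
    linarith
  rw [dd, h, mul_pow, sq_abs]
  ring

lemma dd_nonneg (t : ℝ) : 0 ≤ dd t := by
  rw [dd_eq]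
  positivity

lemma dd_le_four (t : ℝ) : dd t ≤ 4 := by
  have := neg_one_le_cos (2 * π * t)
  unfold dd
  linarith

lemma dd_neg (t : ℝ) : dd (-t) = dd t := by
  unfold dd
  rw [show 2 * π * -t = -(2 * π * t) by ring, cos_neg]

lemma dd_sub_comm (s t : ℝ) : dd (s - t) = dd (t - s) := by
  rw [← dd_neg, neg_sub]

lemma dd_add_int (t : ℝ) (n : ℤ) : dd (t + n) = dd t := by
  unfold dd
  rw [show 2 * π * (t + n) = 2 * π * t + n * (2 * π) by ring, cos_add_int_mul_two_pi]

lemma dd_congr {s t : ℝ} (n : ℤ) (h : s = t + n) : dd s = dd t := by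
  rw [h, dd_add_int]

lemma dd_int (n : ℤ) : dd (n : ℝ) = 0 := by
  have := dd_add_int 0 n
  rw [zero_add] at this
  rw [this, dd]
  simp

lemma dd_zero : dd 0 = 0 := by
  simpa using dd_int 0

lemma abs_sin_add_le (a b : ℝ) : |sin (a + b)| ≤ |sin a| + |sin b| := by
  rw [sin_add]
  refine (abs_add_le _ _).trans ?_
  rw [abs_mul, abs_mul]
  have h1 := abs_cos_le_one b
  have h2 := abs_cos_le_one a
  have h3 := abs_nonneg (sin a)
  have h4 := abs_nonneg (sin b)
  nlinarith [mul_le_mul_of_nonneg_left h1 h3, mul_le_mul_of_nonneg_right h2 h4]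

lemma dd_add_le (s t : ℝ) : dd (s + t) ≤ 2 * (dd s + dd t) := by
  rw [dd_eq, dd_eq, dd_eq]
  have h := abs_sin_add_le (π * s) (π * t)
  rw [← mul_add] at h
  have h0 := abs_nonneg (sin (π * (s + t)))
  have h1 : (2 * |sin (π * (s + t))|) ^ 2 ≤ (2 * (|sin (π * s)| + |sin (π * t)|)) ^ 2 := by
    gcongr
  refine h1.trans ?_
  nlinarith [sq_nonneg (|sin (π * s)| - |sin (π * t)|)]

lemma dd_add3_le (s t u : ℝ) : dd (s + t + u) ≤ 3 * (dd s + dd t + dd u) := by
  rw [dd_eq, dd_eq, dd_eq, dd_eq]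
  have h := abs_sin_add_le (π * s) (π * t)
  have h' := abs_sin_add_le (π * s + π * t) (π * u)
  rw [← mul_add, ← mul_add] at h'
  rw [← mul_add] at h
  have h0 := abs_nonneg (sin (π * (s + t + u)))
  have h1 : (2 * |sin (π * (s + t + u))|) ^ 2 ≤
      (2 * (|sin (π * s)| + |sin (π * t)| + |sin (π * u)|)) ^ 2 := by
    gcongr
    linarith
  refine h1.trans ?_
  nlinarith [sq_nonneg (|sin (π * s)| - |sin (π * t)|), sq_nonneg (|sin (π * s)| - |sin (π * u)|),
    sq_nonneg (|sin (π * t)| - |sin (π * u)|)]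

lemma dd_add4_le (s t u w : ℝ) : dd (s + t + u + w) ≤ 4 * (dd s + dd t + dd u + dd w) := by
  have h1 := dd_add_le (s + t) (u + w)
  have h2 := dd_add_le s t
  have h3 := dd_add_le u w
  rw [show s + t + u + w = (s + t) + (u + w) by ring]
  linarith

lemma dd_le_sq (t : ℝ) : dd t ≤ 40 * t ^ 2 := by
  rw [dd_eq]
  have h : |sin (π * t)| ≤ |π * t| := by
    rcases le_total 0 (π * t) with h | h
    · rw [abs_of_nonneg h]
      rw [abs_le]
      constructor
      · by_cases h1 : π * t ≤ π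
        · have := sin_nonneg_of_nonneg_of_le_pi h h1
          linarith
        · have := neg_one_le_sin (π * t)
          have := pi_gt_three
          linarith
      · exact sin_le h
    · rw [abs_of_nonpos h]
      have h' : 0 ≤ -(π * t) := by linarith
      rw [abs_le]
      have h2 := sin_le h'
      rw [sin_neg] at h2
      constructor
      · linarith
      · by_cases h1 : -(π * t) ≤ π
        · have := sin_nonneg_of_nonneg_of_le_pi h' h1
          rw [sin_neg] at this
          linarith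
        · have := sin_le_one (π * t)
          have := pi_gt_three
          linarith
  have h2 : (2 * |sin (π * t)|) ^ 2 ≤ (2 * |π * t|) ^ 2 := by gcongr
  refine h2.trans ?_
  rw [mul_pow, sq_abs, mul_pow]
  have h3 : π ^ 2 ≤ 10 := by
    have h4 := pi_lt_d2
    have h5 := pi_pos
    nlinarith
  nlinarith [mul_le_mul_of_nonneg_right h3 (sq_nonneg t)]

lemma sq_le_dd (t : ℝ) (ht : |t| ≤ 1 / 2) : 16 * t ^ 2 ≤ dd t := by
  rw [dd_eq]
  have h : 2 / π * |π * t| ≤ |sin (π * t)| := by
    apply mul_abs_le_abs_sin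
    rw [abs_mul, abs_of_pos pi_pos]
    nlinarith [pi_pos]
  rw [abs_mul, abs_of_pos pi_pos] at h
  have h1 : 2 / π * (π * |t|) = 2 * |t| := by
    field_simp
  rw [h1] at h
  have h2 : (2 * (2 * |t|)) ^ 2 ≤ (2 * |sin (π * t)|) ^ 2 := by
    gcongr
  refine le_trans (le_of_eq ?_) h2
  rw [mul_pow, mul_pow, sq_abs]
  ring

/-- With the nearest integer removed. -/
lemma sq_le_dd_round (t : ℝ) : 16 * (t - round t) ^ 2 ≤ dd t := by
  have h := sq_le_dd (t - round t) (by simpa using abs_sub_round t)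
  rwa [dd_congr (s := t) (t := t - round t) (round t) (by ring)]

end Pool.Agent.H6.MS
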