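import Mathlib

/-!
# Permutation stability fails for a metabelian group: common definitions

`dd t = |exp(2 pi i t) - 1|^2`, and the local rules of the construction.
-/

set_option autoImplicit false

namespace Pool.Agent.H6.MS

/-- `|exp (2 pi i t) - 1|^2`. -/
noncomputable def dd (t : ℝ) : ℝ := 2 - 2 * Real.cos (2 * Real.pi * t)

/-- The sum of the six defects at the place `(x,y,z)`. -/
noncomputable def defect {N : ℕ} (a1 a2 a3 : ZMod N → ℝ)
    (c1 c2 c3 b2 b3 : ZMod N → ZMod N → ℝ) (x y z : ZMod N) : ℝ :=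
  dd (a1 x + a2 y - a3 (x + y)) +
  dd (a1 (x + 1) - a1 x - Real.sqrt 2) +
  dd (c1 x y + c2 z y - c3 (x + z) y) +
  dd ((- c1 x y - a1 x * a2 y) + b2 x z - b3 x (y + z)) +
  dd (c1 (x + 1) y - c1 x y + Real.sqrt 2 * a2 y) +
  dd ((- c1 x (y + 1) - a1 x * a2 (y + 1)) - (- c1 x y - a1 x * a2 y) + Real.sqrt 2 * a1 x)

end Pool.Agent.H6.MS
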