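import Mathlib

/-!
# Permutation stability fails for a metabelian group: the group and the almost action

`X V` is the disjoint union of a point `none` and of the `Q ⧸ V i`, `Q = ℤ³`.
`G p V` is the permutational wreath product of `ZMod p` and `Q` over `X V`.
-/

set_option autoImplicit false

namespace Pool.Agent.H6.MS

/-- The group `ℤ³`. -/
abbrev Q := ℤ × ℤ × ℤ

variable {n : ℕ}

/-- The `Q`-set: a fixed point and the quotients `Q ⧸ V i`. -/
abbrev X (V : Fin n → AddSubgroup Q) := Option (Σ i : Fin n, Q ⧸ V i)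

/-- Translation by `q`. -/
def trans (V : Fin n → AddSubgroup Q) (q : Q) : Equiv.Perm (X V) :=
  Equiv.optionCongr (Equiv.sigmaCongrRight fun i => Equiv.addLeft ((q : Q) : Q ⧸ V i))

@[simp] lemma trans_none (V : Fin n → AddSubgroup Q) (q : Q) : trans V q none = none := rfl

@[simp] lemma trans_some (V : Fin n → AddSubgroup Q) (q : Q) (i : Fin n) (c : Q ⧸ V i) :
    trans V q (some ⟨i, c⟩) = some ⟨i, (q : Q ⧸ V i) + c⟩ := rfl

lemma trans_zero (V : Fin n → AddSubgroup Q) : trans V 0 = 1 := by
  ext1 j
  rcases j with _ | ⟨i, c⟩ <;> simp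

lemma trans_add (V : Fin n → AddSubgroup Q) (q r : Q) : trans V (q + r) = trans V q * trans V r := by
  ext1 j
  rcases j with _ | ⟨i, c⟩ <;> simp [add_assoc]

/-- The action of `Q` on the base group. -/
noncomputable def act (p : ℕ) (V : Fin n → AddSubgroup Q) :
    Multiplicative Q →* MulAut (Multiplicative (X V →₀ ZMod p)) where
  toFun q := AddEquiv.toMultiplicative (Finsupp.domCongr (trans V q.toAdd))
  map_one' := by
    ext m : 1
    apply Multiplicative.toAdd.injective
    change Finsupp.domCongr (trans V 0) m.toAdd = m.toAdd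
    rw [trans_zero]
    ext j
    rfl
  map_mul' q r := by
    ext m : 1
    apply Multiplicative.toAdd.injective
    change Finsupp.domCongr (trans V (q.toAdd + r.toAdd)) m.toAdd =
      Finsupp.domCongr (trans V q.toAdd) (Finsupp.domCongr (trans V r.toAdd) m.toAdd)
    rw [trans_add]
    ext j
    simp [Equiv.Perm.mul_def]

/-- The group. -/
abbrev G (p : ℕ) (V : Fin n → AddSubgroup Q) : Type :=
  SemidirectProduct (Multiplicative (X V →₀ ZMod p)) (Multiplicative Q) (act p V)

/-- The element `c · δ_j` of the base group, inside `G`. -/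
noncomputable def base (p : ℕ) (V : Fin n → AddSubgroup Q) (j : X V) (c : ZMod p) : G p V :=
  SemidirectProduct.inl (Multiplicative.ofAdd (Finsupp.single j c))

/-- The element `q` of `Q`, inside `G`. -/
noncomputable def shift (p : ℕ) (V : Fin n → AddSubgroup Q) (q : Q) : G p V :=
  SemidirectProduct.inr (Multiplicative.ofAdd q)

/-- Integer representative in the box `[0,L)³`. -/
def rep {L : ℕ} (t : ZMod L × ZMod L × ZMod L) : Q :=
  ((t.1.val : ℤ), (t.2.1.val : ℤ), (t.2.2.val : ℤ))

/-- Reduction modulo `L`. -/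
def red (L : ℕ) (q : Q) : ZMod L × ZMod L × ZMod L := ((q.1 : ZMod L), (q.2.1 : ZMod L), (q.2.2 : ZMod L))

/-- The values read at the place `q`: `1` at the fixed point, `f i (u + q)` at the class of `u`. -/
noncomputable def fX {p : ℕ} {V : Fin n → AddSubgroup Q} (f : Fin n → Q → ZMod p) (q : Q) :
    X V → ZMod p
  | none => 1
  | some ⟨i, c⟩ => f i (Quotient.out c + q)

/-- The functional `ξ_q` on the base group. -/
noncomputable def xi {p : ℕ} (V : Fin n → AddSubgroup Q) (f : Fin n → Q → ZMod p) (q : Q) :
    (X V →₀ ZMod p) →ₗ[ZMod p] ZMod p :=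
  Finsupp.linearCombination (ZMod p) (fX (V := V) f q)

/-- The space on which the almost action is defined. -/
abbrev Om (p L : ℕ) := (ZMod L × ZMod L × ZMod L) × ZMod p

/-- The almost action. -/
noncomputable def sig {p : ℕ} (V : Fin n → AddSubgroup Q) (f : Fin n → Q → ZMod p) (L : ℕ)
    (g : G p V) : Equiv.Perm (Om p L) where
  toFun ω := (ω.1 - red L g.right.toAdd, ω.2 + xi V f (rep (ω.1 - red L g.right.toAdd)) g.left.toAdd)
  invFun ω := (ω.1 + red L g.right.toAdd, ω.2 - xi V f (rep ω.1) g.left.toAdd)
  left_inv ω := by simp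
  right_inv ω := by simp

end Pool.Agent.H6.MS
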