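import Pool.Agent.H6.MS.Robust
import Pool.Agent.H6.MS.RedDefs

/-!
# The exact solution and its cells
-/

set_option autoImplicit false

namespace Pool.Agent.H6.MS

/-- The cell of `t` modulo `1`. -/
noncomputable def cell (p : ℕ) (t : ℝ) : ZMod p := ((⌊(p : ℝ) * Int.fract t⌋ : ℤ) : ZMod p)

/-- The left end of a cell. -/
noncomputable def mid {p : ℕ} (c : ZMod p) : ℝ := (c.val : ℝ) / p

lemma mid_nonneg {p : ℕ} (c : ZMod p) : 0 ≤ mid c := by
  unfold mid
  positivity

lemma mid_le_one {p : ℕ} [NeZero p] (c : ZMod p) : mid c ≤ 1 := by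
  unfold mid
  have hp : (0 : ℝ) < p := Nat.cast_pos.mpr (NeZero.pos p)
  rw [div_le_one hp]
  exact_mod_cast (ZMod.val_lt c).le

lemma mid_cell (p : ℕ) [NeZero p] (t : ℝ) : ∃ e : ℝ, |e| ≤ 1 / p ∧ mid (cell p t) = Int.fract t + e := by
  have hp : (0 : ℝ) < p := Nat.cast_pos.mpr (NeZero.pos p)
  have h0 := Int.fract_nonneg t
  have h1 := Int.fract_lt_one t
  obtain ⟨k, hk⟩ : ∃ k : ℕ, (k : ℤ) = ⌊(p : ℝ) * Int.fract t⌋ :=
    ⟨_, Int.toNat_of_nonneg (Int.floor_nonneg.mpr (by positivity))⟩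
  have h2 : (k : ℝ) ≤ p * Int.fract t := by
    have := Int.floor_le ((p : ℝ) * Int.fract t)
    rw [← hk] at this
    exact_mod_cast this
  have h3 : (p : ℝ) * Int.fract t < k + 1 := by
    have := Int.lt_floor_add_one ((p : ℝ) * Int.fract t)
    rw [← hk] at this
    exact_mod_cast this
  have hkp : k < p := by
    have : (k : ℝ) < p := by nlinarith
    exact_mod_cast this
  have h4 : (cell p t).val = k := by
    unfold cell
    rw [← hk, Int.cast_natCast, ZMod.val_cast_of_lt hkp]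
  refine ⟨mid (cell p t) - Int.fract t, ?_, by ring⟩
  unfold mid
  rw [h4, abs_le]
  constructor
  · have : (k : ℝ) / p - Int.fract t = (k - p * Int.fract t) / p := by field_simp
    rw [this, ← neg_div]
    gcongr
    linarith
  · have : (k : ℝ) / p - Int.fract t = (k - p * Int.fract t) / p := by field_simp
    rw [this]
    gcongr
    linarith

/-- The coordinates of the eight functions. -/
def phi : Fin 8 → Q → ℤ × ℤ
  | 0 => fun q => (q.1, 0)
  | 1 => fun q => (q.2.1, 0)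
  | 2 => fun q => (q.1 + q.2.1, 0)
  | 3 => fun q => (q.1, q.2.1)
  | 4 => fun q => (q.2.2, q.2.1)
  | 5 => fun q => (q.1 + q.2.2, q.2.1)
  | 6 => fun q => (q.1, q.2.2)
  | 7 => fun q => (q.1, q.2.1 + q.2.2)

/-- Sections. -/
def psi : Fin 8 → ℤ × ℤ → Q
  | 0 => fun u => (u.1, 0, 0)
  | 1 => fun u => (0, u.1, 0)
  | 2 => fun u => (u.1, 0, 0)
  | 3 => fun u => (u.1, u.2, 0)
  | 4 => fun u => (0, u.2, u.1)
  | 5 => fun u => (u.1, u.2, 0)
  | 6 => fun u => (u.1, 0, u.2)
  | 7 => fun u => (u.1, u.2, 0)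

lemma phi_add (i : Fin 8) (q r : Q) : phi i (q + r) = phi i q + phi i r := by
  fin_cases i <;> ext <;> simp [phi] <;> ring

lemma psi_add (i : Fin 8) (q r : ℤ × ℤ) : psi i (q + r) = psi i q + psi i r := by
  fin_cases i <;> ext <;> simp [psi]

lemma psi_smul (i : Fin 8) (c : ℤ) (q : ℤ × ℤ) : psi i (c • q) = c • psi i q := by
  fin_cases i <;> ext <;> simp [psi]

lemma phi_zero (i : Fin 8) : phi i 0 = 0 := by
  fin_cases i <;> ext <;> simp [phi]

lemma phi_psi_phi (i : Fin 8) (q : Q) : phi i (psi i (phi i q)) = phi i q := by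
  fin_cases i <;> ext <;> simp [psi, phi]

/-- The subgroups. -/
def VV (i : Fin 8) : AddSubgroup Q where
  carrier := {q | phi i q = 0}
  zero_mem' := phi_zero i
  add_mem' := by
    intro a b ha hb
    change phi i (a + b) = 0
    rw [phi_add, ha, hb, add_zero]
  neg_mem' := by
    intro a ha
    change phi i (-a) = 0
    have h := phi_add i a (-a)
    rw [add_neg_cancel, phi_zero, ha, zero_add] at h
    exact h.symm

lemma mem_VV (i : Fin 8) (q : Q) : q ∈ VV i ↔ phi i q = 0 := Iff.rfl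

/-- The eight exact functions of two coordinates, with `s = √2`. -/
noncomputable def FF : Fin 8 → ℤ × ℤ → ℝ
  | 0 => fun u => Real.sqrt 2 * u.1
  | 1 => fun u => Real.sqrt 2 * u.1
  | 2 => fun u => Real.sqrt 2 * u.1
  | 3 => fun u => ⌊Real.sqrt 2 * u.2⌋ * (Real.sqrt 2 * u.1)
  | 4 => fun u => ⌊Real.sqrt 2 * u.2⌋ * (Real.sqrt 2 * u.1)
  | 5 => fun u => ⌊Real.sqrt 2 * u.2⌋ * (Real.sqrt 2 * u.1)
  | 6 => fun u => ⌊Real.sqrt 2 * u.1⌋ * (Real.sqrt 2 * u.2)
  | 7 => fun u => ⌊Real.sqrt 2 * u.1⌋ * (Real.sqrt 2 * u.2)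

/-- The eight functions on `Q`. -/
noncomputable def ff (p : ℕ) (i : Fin 8) (q : Q) : ZMod p := cell p (FF i (phi i q))

lemma ff_inv (p : ℕ) (i : Fin 8) (q v : Q) (hv : v ∈ VV i) : ff p i (q + v) = ff p i q := by
  unfold ff
  rw [phi_add, (mem_VV i v).mp hv, add_zero]

/-- A periodic invariant function factors through the coordinates modulo `N`. -/
lemma factor {β : Type*} {N : ℕ} [NeZero N] (i : Fin 8) (g : Q → β)
    (hg : ∀ q v, v ∈ VV i → g (q + v) = g q) (hp : ∀ q (v : Q), g (q + (N : ℤ) • v) = g q)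
    (q : Q) (u v : ZMod N) (hu : ((phi i q).1 : ZMod N) = u) (hv : ((phi i q).2 : ZMod N) = v) :
    g q = g (psi i ((u.val : ℤ), (v.val : ℤ))) := by
  have h1 : g q = g (psi i (phi i q)) := by
    have hm : q - psi i (phi i q) ∈ VV i := by
      rw [mem_VV]
      have h := phi_add i (psi i (phi i q)) (q - psi i (phi i q))
      rw [add_sub_cancel, phi_psi_phi] at h
      exact left_eq_add.mp h
    have := hg (psi i (phi i q)) _ hm
    rw [add_sub_cancel] at this
    exact this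
  obtain ⟨a, ha⟩ : ∃ a : ℤ, (phi i q).1 = u.val + N * a := by
    have h2 : (((phi i q).1 : ℤ) : ZMod N) = ((u.val : ℤ) : ZMod N) := by
      rw [hu]
      simp
    rw [ZMod.intCast_eq_intCast_iff_dvd_sub] at h2
    obtain ⟨c, hc⟩ := h2
    exact ⟨-c, by linarith⟩
  obtain ⟨b, hb⟩ : ∃ b : ℤ, (phi i q).2 = v.val + N * b := by
    have h2 : (((phi i q).2 : ℤ) : ZMod N) = ((v.val : ℤ) : ZMod N) := by
      rw [hv]
      simp
    rw [ZMod.intCast_eq_intCast_iff_dvd_sub] at h2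
    obtain ⟨c, hc⟩ := h2
    exact ⟨-c, by linarith⟩
  have h3 : phi i q = ((u.val : ℤ), (v.val : ℤ)) + (N : ℤ) • (a, b) := by
    ext
    · simp [ha]
    · simp [hb]
  rw [h1, h3, psi_add, psi_smul, hp]

end Pool.Agent.H6.MS
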