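import Pool.Agent.H36.MS.REDA

/-!
# Extraction of the periodic functions from an action of `G`
-/

set_option autoImplicit false

namespace Pool.Agent.H6.MS

open Pool.Agent.H36.MS

variable {n : ℕ}

/-- Averaging: a point with few bad translates. -/
lemma average {α β : Type*} [Fintype α] [Fintype β] [Nonempty α] (T : β → Equiv.Perm α)
    (bad : α → Prop) [DecidablePred bad] (ε : ℝ)
    (h : ((Finset.univ.filter bad).card : ℝ) ≤ ε * Fintype.card α) :
    ∃ a : α, ((Finset.univ.filter fun t => bad (T t a)).card : ℝ) ≤ ε * Fintype.card β := by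
  by_contra hcon
  push Not at hcon
  have h1 : ∑ a : α, (ε * Fintype.card β : ℝ) <
      ∑ a : α, ((Finset.univ.filter fun t => bad (T t a)).card : ℝ) :=
    Finset.sum_lt_sum_of_nonempty Finset.univ_nonempty fun a _ => hcon a
  have h2 : ∑ a : α, ((Finset.univ.filter fun t => bad (T t a)).card : ℝ) =
      ∑ t : β, ((Finset.univ.filter bad).card : ℝ) := by
    have h3 : ∀ a : α, ((Finset.univ.filter fun t => bad (T t a)).card : ℝ) =
        ∑ t : β, if bad (T t a) then (1 : ℝ) else 0 := by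
      intro a
      rw [Finset.sum_boole]
    simp only [h3]
    rw [Finset.sum_comm]
    refine Finset.sum_congr rfl fun t _ => ?_
    rw [Equiv.sum_comp (T t) (fun a => if bad a then (1 : ℝ) else 0), Finset.sum_boole]
  rw [h2, Finset.sum_const, Finset.sum_const, Finset.card_univ, Finset.card_univ, nsmul_eq_mul,
    nsmul_eq_mul] at h1
  have h4 : (Fintype.card β : ℝ) * ((Finset.univ.filter bad).card : ℝ) ≤
      Fintype.card β * (ε * Fintype.card α) := by gcongr
  linarith

/-- RED3 -/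
theorem extract {p : ℕ} [Fact p.Prime] (V : Fin n → AddSubgroup Q) (f : Fin n → Q → ZMod p)
    {L : ℕ} [NeZero L] (τ : G p V →* Equiv.Perm (Om p L))
    (W : Finset Q) (ε : ℝ) (hε : ε < 1)
    (hbad : (Nat.card {ω : Om p L // ¬ ((∀ c : ZMod p, τ (base p V none c) ω = (ω.1, ω.2 + c)) ∧
      ∀ i, ∀ w ∈ W, τ (base p V (some ⟨i, ((w : Q) : Q ⧸ V i)⟩) 1) ω =
        (ω.1, ω.2 + f i (w + rep ω.1)))} : ℝ) ≤ ε * (Nat.card (Om p L) : ℝ)) :
    ∃ (N : ℕ) (_ : NeZero N) (g : Fin n → Q → ZMod p),
      (∀ i q v, v ∈ V i → g i (q + v) = g i q) ∧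
      (∀ i q (v : Q), g i (q + (N : ℤ) • v) = g i q) ∧
      (Nat.card {t : ZMod N × ZMod N × ZMod N //
        ¬ ∃ q : Q, ∀ i, ∀ w ∈ W, g i (rep t + w) = f i (q + w)} : ℝ)
        ≤ ε * (N : ℝ) ^ 3 := by
  classical
  have hp0 : NeZero p := ⟨(Fact.out : p.Prime).ne_zero⟩
  set good : Om p L → Prop := fun ω =>
    (∀ c : ZMod p, τ (base p V none c) ω = (ω.1, ω.2 + c)) ∧
      ∀ i, ∀ w ∈ W, τ (base p V (some ⟨i, ((w : Q) : Q ⧸ V i)⟩) 1) ω =
        (ω.1, ω.2 + f i (w + rep ω.1)) with hgood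
  obtain ⟨N, hN⟩ : ∃ N : ℕ, N = Fintype.card (Equiv.Perm (Om p L)) := ⟨_, rfl⟩
  have hN0 : NeZero N := ⟨by rw [hN]; exact Fintype.card_ne_zero⟩
  have hτN : ∀ v : Q, τ (shift p V ((N : ℤ) • v)) = 1 := by
    intro v
    rw [shift_zsmul, map_zpow, zpow_natCast, hN]
    exact pow_card_eq_one
  -- the point
  rw [Nat.card_eq_fintype_card, Nat.card_eq_fintype_card, Fintype.card_subtype] at hbad
  obtain ⟨ω₀, hω₀⟩ := average (β := ZMod N × ZMod N × ZMod N)
    (fun t => τ (shift p V (-rep t))) (fun ω => ¬ good ω) ε hbad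
  have hcard : (Fintype.card (ZMod N × ZMod N × ZMod N) : ℝ) = (N : ℝ) ^ 3 := by
    rw [Fintype.card_prod, Fintype.card_prod, ZMod.card]
    push_cast
    ring
  rw [hcard] at hω₀
  have hN1 : (0 : ℝ) < (N : ℝ) ^ 3 := by
    have : (0 : ℝ) < N := Nat.cast_pos.mpr (NeZero.pos N)
    positivity
  have hex : ∃ t : ZMod N × ZMod N × ZMod N, good (τ (shift p V (-rep t)) ω₀) := by
    by_contra hcon
    push Not at hcon
    rw [Finset.filter_true_of_mem (fun t _ => hcon t), Finset.card_univ, hcard] at hω₀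
    nlinarith
  -- the stabiliser inside the base group
  let inlM : (X V →₀ ZMod p) → G p V := fun m => SemidirectProduct.inl (Multiplicative.ofAdd m)
  have inl_add : ∀ m m', inlM (m + m') = inlM m * inlM m' := by
    intro m m'
    simp only [inlM, ofAdd_add, map_mul]
  let B : AddSubgroup (X V →₀ ZMod p) :=
    { carrier := {m | τ (inlM m) ω₀ = ω₀}
      zero_mem' := by
        change τ (inlM 0) ω₀ = ω₀
        simp only [inlM, ofAdd_zero, map_one, Equiv.Perm.coe_one, id_eq]
      add_mem' := by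
        intro a b ha hb
        change τ (inlM (a + b)) ω₀ = ω₀
        rw [inl_add, map_mul, Equiv.Perm.mul_apply]
        rw [show τ (inlM b) ω₀ = ω₀ from hb, show τ (inlM a) ω₀ = ω₀ from ha]
      neg_mem' := by
        intro a ha
        change τ (inlM (-a)) ω₀ = ω₀
        have h1 : inlM (-a) = (inlM a)⁻¹ := by
          rw [eq_inv_iff_mul_eq_one, ← inl_add, neg_add_cancel]
          simp only [inlM, ofAdd_zero, map_one]
        rw [h1, map_inv, Equiv.Perm.inv_eq_iff_eq]
        exact (show τ (inlM a) ω₀ = ω₀ from ha).symm }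
  have hBmem : ∀ m, m ∈ B ↔ τ (inlM m) ω₀ = ω₀ := fun m => Iff.rfl
  have base_eq : ∀ j c, base p V j c = inlM (Finsupp.single j c) := fun j c => rfl
  -- the central element is not in it
  have hz : Finsupp.single (none : X V) (1 : ZMod p) ∉ B := by
    intro hmem
    rw [hBmem, ← base_eq] at hmem
    obtain ⟨t, ht⟩ := hex
    have h1 := ht.1 1
    have h2 : τ (base p V none 1) (τ (shift p V (-rep t)) ω₀) = τ (shift p V (-rep t)) ω₀ := by
      have h3 := conj_base p V (-rep t) none 1
      rw [trans_none] at h3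
      have h4 : base p V none 1 * shift p V (-rep t) = shift p V (-rep t) * base p V none 1 :=
        (mul_inv_eq_iff_eq_mul.mp h3).symm
      rw [← Equiv.Perm.mul_apply, ← map_mul, h4, map_mul, Equiv.Perm.mul_apply, hmem]
    rw [h2] at h1
    have h5 := congrArg Prod.snd h1
    simp at h5
  obtain ⟨ψ₀, hψ₀, hker⟩ := Submodule.exists_le_ker_of_notMem
    (p := AddSubgroup.toZModSubmodule p B) (v := Finsupp.single (none : X V) (1 : ZMod p)) hz
  obtain ⟨ψ, hψ⟩ : ∃ ψ : (X V →₀ ZMod p) →ₗ[ZMod p] ZMod p,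
      ψ = (ψ₀ (Finsupp.single (none : X V) (1 : ZMod p)))⁻¹ • ψ₀ := ⟨_, rfl⟩
  have hψz : ψ (Finsupp.single (none : X V) (1 : ZMod p)) = 1 := by
    rw [hψ, LinearMap.smul_apply, smul_eq_mul]
    exact inv_mul_cancel₀ hψ₀
  have hψB : ∀ m ∈ B, ψ m = 0 := by
    intro m hm
    have h1 : ψ₀ m = 0 := by
      have := hker (show m ∈ AddSubgroup.toZModSubmodule p B from hm)
      exact LinearMap.mem_ker.mp this
    rw [hψ, LinearMap.smul_apply, h1, smul_zero]
  -- conjugation
  have conj : ∀ (q : Q) (j : X V) (c : ZMod p), base p V (trans V q j) c =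
      shift p V q * base p V j c * (shift p V q)⁻¹ := fun q j c => (conj_base p V q j c).symm
  refine ⟨N, hN0, fun i u => ψ (Finsupp.single (some ⟨i, ((u : Q) : Q ⧸ V i)⟩) 1), ?_, ?_, ?_⟩
  · intro i q v hv
    have : ((q + v : Q) : Q ⧸ V i) = ((q : Q) : Q ⧸ V i) := by
      rw [QuotientAddGroup.eq]
      have : -(q + v) + q = -v := by abel
      rw [this]
      exact (V i).neg_mem hv
    simp only [this]
  · intro i q v
    have h1 : (Finsupp.single (some ⟨i, ((q + (N : ℤ) • v : Q) : Q ⧸ V i)⟩ : X V) (1 : ZMod p) -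
        Finsupp.single (some ⟨i, ((q : Q) : Q ⧸ V i)⟩ : X V) 1) ∈ B := by
      rw [hBmem]
      have h2 : inlM (Finsupp.single (some ⟨i, ((q + (N : ℤ) • v : Q) : Q ⧸ V i)⟩ : X V) (1 : ZMod p) -
        Finsupp.single (some ⟨i, ((q : Q) : Q ⧸ V i)⟩ : X V) 1) =
          base p V (some ⟨i, ((q + (N : ℤ) • v : Q) : Q ⧸ V i)⟩) 1 *
          (base p V (some ⟨i, ((q : Q) : Q ⧸ V i)⟩) 1)⁻¹ := by
        rw [eq_mul_inv_iff_mul_eq, base_eq, base_eq, ← inl_add, sub_add_cancel]
      have h3 : (some ⟨i, ((q + (N : ℤ) • v : Q) : Q ⧸ V i)⟩ : X V) =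
          trans V ((N : ℤ) • v) (some ⟨i, ((q : Q) : Q ⧸ V i)⟩) := by
        rw [trans_some, add_comm]
        rfl
      rw [h2, h3, conj, map_mul, map_mul, map_mul, map_inv, map_inv, hτN]
      simp
    have h4 := hψB _ h1
    rw [map_sub] at h4
    exact sub_eq_zero.mp h4
  · rw [Nat.card_eq_fintype_card, Fintype.card_subtype]
    refine le_trans ?_ hω₀
    have h5 : (Finset.univ.filter fun t : ZMod N × ZMod N × ZMod N =>
        ¬ ∃ q : Q, ∀ i, ∀ w ∈ W,
          ψ (Finsupp.single (some ⟨i, ((rep t + w : Q) : Q ⧸ V i)⟩) 1) = f i (q + w)) ⊆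
        (Finset.univ.filter fun t : ZMod N × ZMod N × ZMod N =>
          ¬ good (τ (shift p V (-rep t)) ω₀)) := by
      intro t ht
      rw [Finset.mem_filter] at ht ⊢
      refine ⟨Finset.mem_univ _, fun hg => ht.2 ?_⟩
      obtain ⟨hg1, hg2⟩ := hg
      set ω := τ (shift p V (-rep t)) ω₀ with hω
      refine ⟨rep ω.1, fun i w hw => ?_⟩
      have e1 := hg2 i w hw
      rw [← hg1 (f i (w + rep ω.1))] at e1
      have e2 : Finsupp.single (some ⟨i, ((rep t + w : Q) : Q ⧸ V i)⟩ : X V) (1 : ZMod p) -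
          Finsupp.single (none : X V) (f i (w + rep ω.1)) ∈ B := by
        rw [hBmem]
        have h2 : inlM (Finsupp.single (some ⟨i, ((rep t + w : Q) : Q ⧸ V i)⟩ : X V) (1 : ZMod p) -
            Finsupp.single (none : X V) (f i (w + rep ω.1))) =
            (base p V none (f i (w + rep ω.1)))⁻¹ *
            base p V (some ⟨i, ((rep t + w : Q) : Q ⧸ V i)⟩) 1 := by
          rw [eq_inv_mul_iff_mul_eq, base_eq, base_eq, ← inl_add, add_sub_cancel]
        have h3 : (some ⟨i, ((rep t + w : Q) : Q ⧸ V i)⟩ : X V) =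
            trans V (rep t) (some ⟨i, ((w : Q) : Q ⧸ V i)⟩) := by
          rw [trans_some]
          rfl
        have h4 : base p V none (f i (w + rep ω.1)) = shift p V (rep t) *
            base p V none (f i (w + rep ω.1)) * (shift p V (rep t))⁻¹ := by
          rw [← conj, trans_none]
        have h6 : shift p V (-rep t) = (shift p V (rep t))⁻¹ := by
          rw [eq_inv_iff_mul_eq_one, ← shift_add, neg_add_cancel]
          simp [shift]
        rw [h2, h3, conj, h4]
        have h7 : (shift p V (rep t) * base p V none (f i (w + rep ω.1)) *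
            (shift p V (rep t))⁻¹)⁻¹ * (shift p V (rep t) *
            base p V (some ⟨i, ((w : Q) : Q ⧸ V i)⟩) 1 * (shift p V (rep t))⁻¹) =
            (shift p V (rep t)) * ((base p V none (f i (w + rep ω.1)))⁻¹ *
            base p V (some ⟨i, ((w : Q) : Q ⧸ V i)⟩) 1) * (shift p V (-rep t)) := by
          rw [h6]
          group
        have h8 : τ (base p V none (f i (w + rep ω.1)))⁻¹
            (τ (base p V none (f i (w + rep ω.1))) ω) = ω := by
          rw [← Equiv.Perm.mul_apply, ← map_mul, inv_mul_cancel, map_one, Equiv.Perm.one_apply]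
        rw [h7, map_mul, map_mul, map_mul, Equiv.Perm.mul_apply, ← hω, Equiv.Perm.mul_apply,
          Equiv.Perm.mul_apply, e1, h8, hω, ← Equiv.Perm.mul_apply, ← map_mul, h6,
          mul_inv_cancel, map_one, Equiv.Perm.one_apply]
      have e3 := hψB _ e2
      rw [map_sub] at e3
      have e4 : ψ (Finsupp.single (none : X V) (f i (w + rep ω.1))) = f i (w + rep ω.1) := by
        have : Finsupp.single (none : X V) (f i (w + rep ω.1)) =
            (f i (w + rep ω.1)) • Finsupp.single (none : X V) (1 : ZMod p) := by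
          rw [Finsupp.smul_single, smul_eq_mul, mul_one]
        rw [this, map_smul, hψz, smul_eq_mul, mul_one]
      rw [e4] at e3
      rw [sub_eq_zero.mp e3, add_comm]
    exact_mod_cast Finset.card_le_card h5

end Pool.Agent.H6.MS
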