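import Pool.Agent.H6.MS.Exact

/-!
# The defect at a good place is small
-/

set_option autoImplicit false

namespace Pool.Agent.H6.MS

lemma dd_small {t r C η : ℝ} (n : ℤ) (h : t = n + r) (hr : |r| ≤ C * η) :
    dd t ≤ 40 * (C ^ 2 * η ^ 2) := by
  have h1 : dd t = dd r := dd_congr n (by rw [h]; ring)
  rw [h1]
  refine (dd_le_sq r).trans ?_
  have h2 : r ^ 2 ≤ (C * η) ^ 2 := by
    rw [← sq_abs r]
    gcongr
  rw [mul_pow] at h2
  linarith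

lemma abs_mul_le_of {a b η : ℝ} (ha : |a| ≤ 1) (hb : |b| ≤ η) : |a * b| ≤ η := by
  rw [abs_mul]
  have := abs_nonneg a
  have := abs_nonneg b
  nlinarith

/-- The place `(x,y,z)` as an integer vector. -/
def vec {N : ℕ} (x y z : ZMod N) : Q := ((x.val : ℤ), (y.val : ℤ), (z.val : ℤ))

lemma good_defect {p : ℕ} [NeZero p] {N : ℕ} [NeZero N] (g : Fin 8 → Q → ZMod p)
    (hg : ∀ i q v, v ∈ VV i → g i (q + v) = g i q)
    (hp : ∀ i q (v : Q), g i (q + (N : ℤ) • v) = g i q) (Ga : Fin 8 → ZMod N → ZMod N → ℝ)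
    (hGa : ∀ i u v, Ga i u v = mid (g i (psi i ((u.val : ℤ), (v.val : ℤ)))))
    (x y z : ZMod N) (q : Q)
    (hq : ∀ i, ∀ w ∈ ({0, (1, 0, 0), (0, 1, 0)} : Finset Q), g i (vec x y z + w) = ff p i (q + w)) :
    defect (fun x => Ga 0 x 0) (fun y => Ga 1 y 0) (fun s => Ga 2 s 0) (Ga 3) (Ga 4) (Ga 5)
      (Ga 6) (Ga 7) x y z ≤ 5080 * (1 / p) ^ 2 := by
  obtain ⟨X, Y, Z⟩ := q
  obtain ⟨η, hη⟩ : ∃ η : ℝ, η = 1 / p := ⟨_, rfl⟩
  have hη0 : 0 ≤ η := by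
    rw [hη]
    positivity
  have key : ∀ i, ∀ w ∈ ({0, (1, 0, 0), (0, 1, 0)} : Finset Q), ∀ u v : ZMod N,
      ((phi i (vec x y z + w)).1 : ZMod N) = u → ((phi i (vec x y z + w)).2 : ZMod N) = v →
      ∃ e : ℝ, |e| ≤ η ∧ Ga i u v = Int.fract (FF i (phi i ((X, Y, Z) + w))) + e := by
    intro i w hw u v hu hv
    obtain ⟨e, he, hme⟩ := mid_cell p (FF i (phi i ((X, Y, Z) + w)))
    refine ⟨e, by rw [hη]; exact he, ?_⟩
    rw [hGa, ← factor i (g i) (hg i) (hp i) (vec x y z + w) u v hu hv, hq i w hw]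
    exact hme
  have hGa01 : ∀ i u v, |Ga i u v| ≤ 1 := by
    intro i u v
    rw [hGa, abs_of_nonneg (mid_nonneg _)]
    exact mid_le_one _
  have w0 : (0 : Q) ∈ ({0, (1, 0, 0), (0, 1, 0)} : Finset Q) := by simp
  have w1 : ((1, 0, 0) : Q) ∈ ({0, (1, 0, 0), (0, 1, 0)} : Finset Q) := by simp
  have w2 : ((0, 1, 0) : Q) ∈ ({0, (1, 0, 0), (0, 1, 0)} : Finset Q) := by simp
  obtain ⟨s, hs⟩ : ∃ s : ℝ, s = Real.sqrt 2 := ⟨_, rfl⟩
  have hs2 : s * s = 2 := by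
    rw [hs]
    exact Real.mul_self_sqrt (by norm_num)
  have hs1 : |s| ≤ 1.5 := by
    rw [hs, abs_of_nonneg (Real.sqrt_nonneg 2)]
    rw [Real.sqrt_le_iff]
    constructor <;> norm_num
  obtain ⟨e0, he0, h0⟩ := key 0 0 w0 x 0 (by simp [phi, vec]) (by simp [phi, vec])
  obtain ⟨e0', he0', h0'⟩ := key 0 (1, 0, 0) w1 (x + 1) 0 (by simp [phi, vec]) (by simp [phi, vec])
  obtain ⟨e1, he1, h1⟩ := key 1 0 w0 y 0 (by simp [phi, vec]) (by simp [phi, vec])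
  obtain ⟨e1', he1', h1'⟩ := key 1 (0, 1, 0) w2 (y + 1) 0 (by simp [phi, vec]) (by simp [phi, vec])
  obtain ⟨e2, he2, h2⟩ := key 2 0 w0 (x + y) 0 (by simp [phi, vec]) (by simp [phi, vec])
  obtain ⟨e3, he3, h3⟩ := key 3 0 w0 x y (by simp [phi, vec]) (by simp [phi, vec])
  obtain ⟨e3', he3', h3'⟩ := key 3 (1, 0, 0) w1 (x + 1) y (by simp [phi, vec]) (by simp [phi, vec])
  obtain ⟨e3'', he3'', h3''⟩ := key 3 (0, 1, 0) w2 x (y + 1) (by simp [phi, vec])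
    (by simp [phi, vec])
  obtain ⟨e4, he4, h4⟩ := key 4 0 w0 z y (by simp [phi, vec]) (by simp [phi, vec])
  obtain ⟨e5, he5, h5⟩ := key 5 0 w0 (x + z) y (by simp [phi, vec]) (by simp [phi, vec])
  obtain ⟨e6, he6, h6⟩ := key 6 0 w0 x z (by simp [phi, vec]) (by simp [phi, vec])
  obtain ⟨e7, he7, h7⟩ := key 7 0 w0 x (y + z) (by simp [phi, vec]) (by simp [phi, vec])
  have b1 := hGa01 1 y 0
  have b1' := hGa01 1 (y + 1) 0
  simp only [phi, FF, add_zero, Prod.mk_add_mk, ← hs, Int.cast_add, Int.cast_one, Int.fract]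
    at h0 h0' h1 h1' h2 h3 h3' h3'' h4 h5 h6 h7
  have hA : |s * X - ⌊s * (X : ℝ)⌋| ≤ 1 := by
    have := Int.fract_nonneg (s * (X : ℝ))
    have h := Int.fract_lt_one (s * (X : ℝ))
    rw [Int.fract] at this h
    rw [abs_of_nonneg this]
    exact h.le
  clear key hGa hq hg hp
  generalize ⌊s * (X : ℝ)⌋ = n0 at *
  generalize ⌊s * ((X : ℝ) + 1)⌋ = n0' at *
  generalize ⌊s * (Y : ℝ)⌋ = n1 at *
  generalize ⌊s * ((Y : ℝ) + 1)⌋ = n1' at *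
  generalize ⌊s * ((X : ℝ) + Y)⌋ = n2 at *
  generalize ⌊(n1 : ℝ) * (s * (X : ℝ))⌋ = n3 at *
  generalize ⌊(n1 : ℝ) * (s * ((X : ℝ) + 1))⌋ = n3' at *
  generalize ⌊(n1' : ℝ) * (s * (X : ℝ))⌋ = n3'' at *
  generalize ⌊(n1 : ℝ) * (s * (Z : ℝ))⌋ = n4 at *
  generalize ⌊(n1 : ℝ) * (s * ((X : ℝ) + Z))⌋ = n5 at *
  generalize ⌊(n0 : ℝ) * (s * (Z : ℝ))⌋ = n6 at *
  generalize ⌊(n0 : ℝ) * (s * ((Y : ℝ) + Z))⌋ = n7 at *
  have p1 : |(s * X - n0) * e1| ≤ η := abs_mul_le_of hA he1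
  have p1' : |(s * X - n0) * e1'| ≤ η := abs_mul_le_of hA he1'
  have p2 : |Ga 1 y 0 * e0| ≤ η := abs_mul_le_of b1 he0
  have p2' : |Ga 1 (y + 1) 0 * e0| ≤ η := abs_mul_le_of b1' he0
  have p3 : |s * e0| ≤ 1.5 * η := by
    rw [abs_mul]
    have := abs_nonneg s
    have := abs_nonneg e0
    nlinarith
  have p4 : |s * e1| ≤ 1.5 * η := by
    rw [abs_mul]
    have := abs_nonneg s
    have := abs_nonneg e1
    nlinarith
  rw [abs_le] at he0 he0' he1 he1' he2 he3 he3' he3'' he4 he5 he6 he7 p1 p1' p2 p2' p3 p4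
  have d1 : dd (Ga 0 x 0 + Ga 1 y 0 - Ga 2 (x + y) 0) ≤ 40 * (3 ^ 2 * η ^ 2) := by
    refine dd_small (r := e0 + e1 - e2) (-n0 - n1 + n2) ?_ ?_
    · rw [h0, h1, h2]
      push_cast
      ring
    · rw [abs_le]
      constructor <;> linarith only [hη0, he0.1, he0.2, he1.1, he1.2, he2.1, he2.2]
  have d2 : dd (Ga 0 (x + 1) 0 - Ga 0 x 0 - Real.sqrt 2) ≤ 40 * (2 ^ 2 * η ^ 2) := by
    refine dd_small (r := e0' - e0) (-n0' + n0) ?_ ?_
    · rw [h0, h0', ← hs]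
      push_cast
      ring
    · rw [abs_le]
      constructor <;> linarith only [hη0, he0.1, he0.2, he0'.1, he0'.2]
  have d3 : dd (Ga 3 x y + Ga 4 z y - Ga 5 (x + z) y) ≤ 40 * (3 ^ 2 * η ^ 2) := by
    refine dd_small (r := e3 + e4 - e5) (-n3 - n4 + n5) ?_ ?_
    · rw [h3, h4, h5]
      push_cast
      ring
    · rw [abs_le]
      constructor <;> linarith only [hη0, he3.1, he3.2, he4.1, he4.2, he5.1, he5.2]
  have d4 : dd ((-Ga 3 x y - Ga 0 x 0 * Ga 1 y 0) + Ga 6 x z - Ga 7 x (y + z)) ≤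
      40 * (5 ^ 2 * η ^ 2) := by
    refine dd_small (r := -e3 - (s * X - n0) * e1 - Ga 1 y 0 * e0 + e6 - e7)
      (n3 - 2 * X * Y - n0 * n1 - n6 + n7) ?_ ?_
    · rw [h3, h0, h6, h7, h1]
      push_cast
      linear_combination (-(X : ℝ) * Y) * hs2
    · rw [abs_le]
      constructor <;> linarith only [hη0, he3.1, he3.2, he6.1, he6.2, he7.1, he7.2, p1.1, p1.2, p2.1, p2.2]
  have d5 : dd (Ga 3 (x + 1) y - Ga 3 x y + Real.sqrt 2 * Ga 1 y 0) ≤ 40 * (4 ^ 2 * η ^ 2) := by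
    refine dd_small (r := e3' - e3 + s * e1) (2 * Y - n3' + n3) ?_ ?_
    · rw [h3', h3, h1, ← hs]
      push_cast
      linear_combination (Y : ℝ) * hs2
    · rw [abs_le]
      constructor <;> linarith only [hη0, he3.1, he3.2, he3'.1, he3'.2, p4.1, p4.2]
  have d6 : dd ((-Ga 3 x (y + 1) - Ga 0 x 0 * Ga 1 (y + 1) 0) -
      (-Ga 3 x y - Ga 0 x 0 * Ga 1 y 0) + Real.sqrt 2 * Ga 0 x 0) ≤ 40 * (8 ^ 2 * η ^ 2) := by
    refine dd_small (r := -e3'' + e3 - (s * X - n0) * e1' + (s * X - n0) * e1 -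
      Ga 1 (y + 1) 0 * e0 + Ga 1 y 0 * e0 + s * e0)
      (n3'' - n3 - n0 * n1' + n0 * n1) ?_ ?_
    · rw [h3'', h3, h0, h1, h1', ← hs]
      push_cast
      ring
    · rw [abs_le]
      constructor <;> linarith only [hη0, he3.1, he3.2, he3''.1, he3''.2, p1.1, p1.2, p2.1, p2.2, p1'.1, p1'.2,
        p2'.1, p2'.2, p3.1, p3.2]
  unfold defect
  rw [← hη]
  have hsum := add_le_add (add_le_add (add_le_add (add_le_add (add_le_add d1 d2) d3) d4) d5) d6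
  refine le_trans hsum (le_of_eq ?_)
  ring

end Pool.Agent.H6.MS
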