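import Pool.Agent.H6.MS.DD
import Pool.Agent.H87.MS.BLR
import Pool.Agent.H36.MS.CHS
import Pool.Agent.H54.MS.EXB

/-!
# The robust theorem

No functions on `ZMod N` satisfy the six local rules up to a small mean defect.
-/

set_option autoImplicit false

namespace Pool.Agent.H6.MS

/-- `x / N` as a real number. -/
noncomputable def ee {N : ℕ} (x : ZMod N) : ℝ := (x.val : ℝ) / N

lemma ee_add {N : ℕ} [NeZero N] (x y : ZMod N) : ∃ j : ℤ, ee (x + y) = ee x + ee y + j := by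
  have hN : (N : ℝ) ≠ 0 := Nat.cast_ne_zero.mpr (NeZero.ne N)
  obtain ⟨c, hc⟩ : ∃ c : ℕ, (x.val + y.val) % N + N * c = x.val + y.val :=
    ⟨_, Nat.mod_add_div (x.val + y.val) N⟩
  refine ⟨-(c : ℤ), ?_⟩
  unfold ee
  rw [ZMod.val_add]
  have h' : (((x.val + y.val) % N : ℕ) : ℝ) + N * (c : ℝ) = x.val + y.val := by
    exact_mod_cast hc
  push_cast
  field_simp
  linarith

lemma char_sum' {N : ℕ} [NeZero N] (k : ℤ) (hk : ¬ (N : ℤ) ∣ k) (θ : ℝ) :
    ∑ x : ZMod N, dd ((k : ℝ) * ee x + θ) = 2 * N := by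
  rw [← Pool.Agent.H36.MS.char_sum k hk (-θ)]
  refine Finset.sum_congr rfl fun x _ => ?_
  congr 1
  unfold ee
  ring

lemma circle_eq_iff (s t : ℝ) : ((s : ℝ) : UnitAddCircle) = (t : UnitAddCircle) ↔
    ∃ n : ℤ, s = t + n := by
  rw [← sub_eq_zero, ← AddCircle.coe_sub, AddCircle.coe_eq_zero_iff]
  constructor
  · rintro ⟨n, hn⟩
    refine ⟨n, ?_⟩
    simp only [zsmul_eq_mul, mul_one] at hn
    linarith
  · rintro ⟨n, hn⟩
    refine ⟨n, ?_⟩
    simp only [zsmul_eq_mul, mul_one]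
    linarith

/-- The bilinear expression. -/
noncomputable def TT {N : ℕ} (ζ ω : ZMod N → ℝ) (rho sigma : ZMod N → ℤ) (al be : ZMod N → ℝ)
    (x y : ZMod N) : ℝ :=
  ζ y + ω x + rho y * ee x + sigma x * ee y + al x * be y

section
variable {N : ℕ} [NeZero N] (P : ℤ) (θ₁ θ₂ : ℝ) (al be : ZMod N → ℝ) (ra sb : ZMod N → ℤ)
  (hal : ∀ x, al x = P * ee x + θ₁ + ra x) (hbe : ∀ y, be y = P * ee y + θ₂ + sb y)
  (ζ ω : ZMod N → ℝ) (rho sigma : ZMod N → ℤ)

include hal hbe in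
lemma para_bad (y s t : ZMod N)
    (hbad : (((rho y / N + P / N * be y : ℝ) : UnitAddCircle) -
      ((rho (y + s) / N + P / N * be (y + s) : ℝ) : UnitAddCircle) -
      ((rho (y + t) / N + P / N * be (y + t) : ℝ) : UnitAddCircle) +
      ((rho (y + s + t) / N + P / N * be (y + s + t) : ℝ) : UnitAddCircle)) ≠ 0) :
    ∑ x : ZMod N, dd (TT ζ ω rho sigma al be x y - TT ζ ω rho sigma al be x (y + s) -
      TT ζ ω rho sigma al be x (y + t) + TT ζ ω rho sigma al be x (y + s + t)) = 2 * N := by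
  have hN : (N : ℝ) ≠ 0 := Nat.cast_ne_zero.mpr (NeZero.ne N)
  obtain ⟨j1, hj1⟩ := ee_add y s
  obtain ⟨j2, hj2⟩ := ee_add y t
  obtain ⟨j3, hj3⟩ := ee_add (y + s) t
  have h0 := hbe y
  have h1 := hbe (y + s)
  have h2 := hbe (y + t)
  have h3 := hbe (y + s + t)
  rw [hj1] at h1
  rw [hj2] at h2
  rw [hj3, hj1] at h3
  set n : ℤ := P * (j3 - j2) + sb y - sb (y + s) - sb (y + t) + sb (y + s + t) with hn
  have hnb : be y - be (y + s) - be (y + t) + be (y + s + t) = n := by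
    rw [h0, h1, h2, h3, hn]
    push_cast
    ring
  set K : ℤ := rho y - rho (y + s) - rho (y + t) + rho (y + s + t) + n * P with hK
  have hKN : ¬ (N : ℤ) ∣ K := by
    rintro ⟨m, hm⟩
    apply hbad
    rw [← AddCircle.coe_sub, ← AddCircle.coe_sub, ← AddCircle.coe_add, AddCircle.coe_eq_zero_iff]
    refine ⟨m, ?_⟩
    simp only [zsmul_eq_mul, mul_one]
    have hm' : (K : ℝ) = N * m := by exact_mod_cast hm
    have hK' : (K : ℝ) = rho y - rho (y + s) - rho (y + t) + rho (y + s + t) +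
        (be y - be (y + s) - be (y + t) + be (y + s + t)) * P := by
      rw [hnb, hK]
      push_cast
      ring
    rw [hm'] at hK'
    field_simp
    linarith
  rw [← char_sum' K hKN (ζ y - ζ (y + s) - ζ (y + t) + ζ (y + s + t) + n * θ₁)]
  refine Finset.sum_congr rfl fun x _ => ?_
  refine dd_congr (sigma x * (j3 - j2) + ra x * n) ?_
  have e1 : al x * (be y - be (y + s) - be (y + t) + be (y + s + t)) =
      (P * ee x + θ₁ + ra x) * n := by
    rw [hnb, hal]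
  unfold TT
  rw [hj3, hj1, hj2, hK]
  push_cast
  linear_combination e1

end

lemma sum_shift {N : ℕ} [NeZero N] (F : ZMod N → ℝ) (s : ZMod N) :
    ∑ y, F (y + s) = ∑ y, F y :=
  Equiv.sum_comp (Equiv.addRight s) F

/-- The number of bad parallelograms. -/
lemma count_para {N : ℕ} [NeZero N] (T : ZMod N → ZMod N → ℝ) (Rc : ZMod N → UnitAddCircle) (δ₁ : ℝ)
    (h1 : ∑ x, ∑ y, dd (T x y) ≤ δ₁ * (N : ℝ) ^ 2)
    (hbad : ∀ y s t, Rc y - Rc (y + s) - Rc (y + t) + Rc (y + s + t) ≠ 0 →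
      ∑ x : ZMod N, dd (T x y - T x (y + s) - T x (y + t) + T x (y + s + t)) = 2 * N) :
    (Nat.card {t : ZMod N × ZMod N × ZMod N //
        Rc t.1 - Rc (t.1 + t.2.1) - Rc (t.1 + t.2.2) + Rc (t.1 + t.2.1 + t.2.2) ≠ 0} : ℝ)
        ≤ (8 * δ₁) * (N : ℝ) ^ 3 := by
  classical
  have hN : (0 : ℝ) < N := Nat.cast_pos.mpr (NeZero.pos N)
  rw [Nat.card_eq_fintype_card, Fintype.card_subtype]
  set B := Finset.univ.filter (fun t : ZMod N × ZMod N × ZMod N =>
    Rc t.1 - Rc (t.1 + t.2.1) - Rc (t.1 + t.2.2) + Rc (t.1 + t.2.1 + t.2.2) ≠ 0) with hB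
  set D : ZMod N → ZMod N × ZMod N × ZMod N → ℝ := fun x t =>
    dd (T x t.1 - T x (t.1 + t.2.1) - T x (t.1 + t.2.2) + T x (t.1 + t.2.1 + t.2.2)) with hD
  have e1 : ∑ t ∈ B, ∑ x, D x t = B.card * (2 * N) := by
    rw [Finset.sum_congr rfl (g := fun _ => (2 * N : ℝ))]
    · simp
    · intro t ht
      exact hbad t.1 t.2.1 t.2.2 (Finset.mem_filter.mp ht).2
  have e2 : ∑ t ∈ B, ∑ x, D x t ≤ ∑ t, ∑ x, D x t := by
    apply Finset.sum_le_sum_of_subset_of_nonneg (Finset.subset_univ _)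
    intro t _ _
    exact Finset.sum_nonneg fun x _ => dd_nonneg _
  have e3 : ∑ t, ∑ x, D x t ≤ ∑ t : ZMod N × ZMod N × ZMod N, ∑ x,
      4 * (dd (T x t.1) + dd (T x (t.1 + t.2.1)) + dd (T x (t.1 + t.2.2)) +
        dd (T x (t.1 + t.2.1 + t.2.2))) := by
    refine Finset.sum_le_sum fun t _ => Finset.sum_le_sum fun x _ => ?_
    have := dd_add4_le (T x t.1) (-T x (t.1 + t.2.1)) (-T x (t.1 + t.2.2)) (T x (t.1 + t.2.1 + t.2.2))
    rw [dd_neg, dd_neg] at this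
    exact this
  have e4 : ∑ t : ZMod N × ZMod N × ZMod N, ∑ x,
      4 * (dd (T x t.1) + dd (T x (t.1 + t.2.1)) + dd (T x (t.1 + t.2.2)) +
        dd (T x (t.1 + t.2.1 + t.2.2))) = 16 * (N : ℝ) ^ 2 * ∑ x, ∑ y, dd (T x y) := by
    have f1 : ∀ s t : ZMod N, ∑ y : ZMod N, ∑ x, 4 * (dd (T x y) + dd (T x (y + s)) +
        dd (T x (y + t)) + dd (T x (y + s + t))) = 16 * ∑ x, ∑ y, dd (T x y) := by
      intro s t
      rw [Finset.sum_comm, Finset.mul_sum]
      refine Finset.sum_congr rfl fun x _ => ?_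
      rw [← Finset.mul_sum, Finset.sum_add_distrib, Finset.sum_add_distrib, Finset.sum_add_distrib,
        sum_shift (fun y => dd (T x y)), sum_shift (fun y => dd (T x y))]
      have := sum_shift (fun y => dd (T x y)) (s + t)
      simp only [← add_assoc] at this
      rw [this]
      ring
    rw [Fintype.sum_prod_type, Finset.sum_comm, Fintype.sum_prod_type]
    simp only [f1]
    simp
    ring
  have h5 : (B.card : ℝ) * (2 * N) ≤ 16 * (N : ℝ) ^ 2 * (δ₁ * (N : ℝ) ^ 2) := by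
    rw [← e1]
    refine (e2.trans e3).trans ?_
    rw [e4]
    gcongr
  have h6 : (B.card : ℝ) * (2 * N) ≤ (8 * δ₁ * (N : ℝ) ^ 3) * (2 * N) := by
    refine h5.trans (le_of_eq ?_)
    ring
  exact le_of_mul_le_mul_right h6 (by positivity)

/-- One half of step 3: the linear part is exactly constant. -/
theorem half {N : ℕ} [NeZero N] (P : ℤ) (θ₁ θ₂ : ℝ) (al be : ZMod N → ℝ) (ra sb : ZMod N → ℤ)
    (hal : ∀ x, al x = P * ee x + θ₁ + ra x) (hbe : ∀ y, be y = P * ee y + θ₂ + sb y)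
    (ζ ω : ZMod N → ℝ) (rho sigma : ZMod N → ℤ) (δ₁ δ₂ : ℝ)
    (h1 : ∑ x, ∑ y, dd (TT ζ ω rho sigma al be x y) ≤ δ₁ * (N : ℝ) ^ 2)
    (h2 : ∑ y : ZMod N, dd (rho y / N + P / N * be y) ≤ δ₂ * N)
    (hδ : 8 * δ₁ < 1 / 8) (hδ' : δ₂ + 128 * δ₁ < 2) :
    ∃ (κ : ℝ) (B : Finset (ZMod N)), (B.card : ℝ) ≤ 32 * δ₁ * N ∧
      ∀ y, y ∉ B → ∃ n : ℤ, (rho y / N + P / N * be y : ℝ) = κ + n := by
  classical
  have hN : (0 : ℝ) < N := Nat.cast_pos.mpr (NeZero.pos N)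
  obtain ⟨Rt, hRt⟩ : ∃ Rt : ZMod N → ℝ, ∀ y, Rt y = rho y / N + P / N * be y := ⟨_, fun _ => rfl⟩
  obtain ⟨Rc, hRc⟩ : ∃ Rc : ZMod N → UnitAddCircle, ∀ y, Rc y = ((Rt y : ℝ) : UnitAddCircle) :=
    ⟨_, fun _ => rfl⟩
  have hc := count_para (TT ζ ω rho sigma al be) Rc δ₁ h1
    (fun y s t hb => para_bad P θ₁ θ₂ al be ra sb hal hbe ζ ω rho sigma y s t
      (by simpa only [hRc, hRt] using hb))
  obtain ⟨lam, κc, hlam⟩ := exact_blr Rc (8 * δ₁) hδ hc
  rw [Nat.card_eq_fintype_card, Fintype.card_subtype] at hlam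
  obtain ⟨κ, hκ⟩ : ∃ κ : ℝ, ((κ : ℝ) : UnitAddCircle) = κc := QuotientAddGroup.mk_surjective κc
  have hg : ∀ y, ∃ g : ℝ, ((g : ℝ) : UnitAddCircle) = lam y := fun y =>
    QuotientAddGroup.mk_surjective (lam y)
  choose g hg using hg
  obtain ⟨B, hB⟩ : ∃ B : Finset (ZMod N), B = Finset.univ.filter (fun y : ZMod N =>
    Rc y ≠ κc + lam y) := ⟨_, rfl⟩
  have hlam' : (B.card : ℝ) ≤ 32 * δ₁ * N := by
    rw [hB]
    refine hlam.trans (le_of_eq (by ring))
  have hgood : ∀ y, y ∉ B → ((Rt y : ℝ) : UnitAddCircle) = κc + lam y := by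
    intro y hy
    rw [← hRc]
    by_contra hne
    exact hy (by rw [hB]; exact Finset.mem_filter.mpr ⟨Finset.mem_univ _, hne⟩)
  have h2' : ∑ y : ZMod N, dd (Rt y) ≤ δ₂ * N := by
    simpa only [hRt] using h2
  have hl0 : lam = 0 := by
    by_contra hl
    have h3 := Pool.Agent.H36.MS.hom_sum lam hl g hg (-κ)
    have h4 : ∑ y, dd (g y - -κ) ≤ ∑ y, (dd (Rt y) + if y ∈ B then 4 else 0) := by
      refine Finset.sum_le_sum fun y _ => ?_
      by_cases hy : y ∈ B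
      · rw [if_pos hy]
        have := dd_nonneg (Rt y)
        have := dd_le_four (g y - -κ)
        linarith
      · rw [if_neg hy, add_zero]
        have hy' := hgood y hy
        rw [← hg, ← hκ, ← AddCircle.coe_add, circle_eq_iff] at hy'
        obtain ⟨n, hn⟩ := hy'
        refine le_of_eq (dd_congr (-n) ?_)
        rw [hn]
        push_cast
        ring
    rw [h3, Finset.sum_add_distrib] at h4
    have h5 : ∑ y : ZMod N, (if y ∈ B then (4 : ℝ) else 0) = 4 * B.card := by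
      rw [← Finset.sum_filter]
      simp [mul_comm]
    rw [h5] at h4
    have h6 : (2 : ℝ) * N ≤ (δ₂ + 128 * δ₁) * N := by
      refine h4.trans ?_
      linarith
    have h7 := le_of_mul_le_mul_right h6 hN
    linarith
  refine ⟨κ, B, hlam', fun y hy => ?_⟩
  have hy' := hgood y hy
  rw [hl0, AddMonoidHom.zero_apply, add_zero, ← hκ, circle_eq_iff] at hy'
  rw [← hRt]
  exact hy'

/-- Step 4: `N` divides `P ^ 2`. -/
lemma step4 {N : ℕ} [NeZero N] (P : ℤ) (θ₂ : ℝ) (be : ZMod N → ℝ) (sb : ZMod N → ℤ)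
    (hbe : ∀ y, be y = P * ee y + θ₂ + sb y) (rho : ZMod N → ℤ) (κ δ₃ : ℝ) (B : Finset (ZMod N))
    (hB : (B.card : ℝ) ≤ δ₃ * N)
    (hR : ∀ y, y ∉ B → ∃ n : ℤ, (rho y / N + P / N * be y : ℝ) = κ + n) (h3 : 2 * δ₃ < 1) :
    (N : ℤ) ∣ P ^ 2 := by
  classical
  have hN : (0 : ℝ) < N := Nat.cast_pos.mpr (NeZero.pos N)
  have hN' : (N : ℝ) ≠ 0 := hN.ne'
  by_contra hP
  have h1 := char_sum' (P ^ 2) hP (P * θ₂ - N * κ)
  have h2 : ∑ y : ZMod N, dd (((P ^ 2 : ℤ) : ℝ) * ee y + (P * θ₂ - N * κ)) ≤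
      ∑ y : ZMod N, (if y ∈ B then (4 : ℝ) else 0) := by
    refine Finset.sum_le_sum fun y _ => ?_
    split_ifs with hy
    · exact dd_le_four _
    · obtain ⟨n, hn⟩ := hR y hy
      refine le_of_eq ?_
      rw [← dd_int (N * n - rho y - P * sb y)]
      congr 1
      rw [hbe y] at hn
      have hn' : (rho y : ℝ) + P * (P * ee y + θ₂ + sb y) = N * κ + N * n := by
        field_simp at hn
        linarith
      push_cast
      linarith
  have h5 : ∑ y : ZMod N, (if y ∈ B then (4 : ℝ) else 0) = 4 * B.card := by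
    rw [← Finset.sum_filter]
    simp [mul_comm]
  rw [h1, h5] at h2
  have h6 : 1 * (N : ℝ) ≤ (2 * δ₃) * N := by linarith
  have h7 := le_of_mul_le_mul_right h6 hN
  linarith

lemma sum4 {N : ℕ} [NeZero N] (T : ZMod N → ZMod N → ℝ) :
    ∑ x, ∑ x', ∑ y, ∑ y', (dd (T x y) + dd (T x' y) + dd (T x y') + dd (T x' y')) =
      4 * (N : ℝ) ^ 2 * ∑ x, ∑ y, dd (T x y) := by
  have hc : (Fintype.card (ZMod N) : ℝ) = N := by rw [ZMod.card]
  have e1 : ∑ x : ZMod N, ∑ x' : ZMod N, ∑ y, ∑ y' : ZMod N, dd (T x y) =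
      (N : ℝ) ^ 2 * ∑ x, ∑ y, dd (T x y) := by
    simp only [Finset.sum_const, Finset.card_univ, nsmul_eq_mul, hc, ← Finset.mul_sum]
    ring
  have e2 : ∑ x : ZMod N, ∑ x' : ZMod N, ∑ y, ∑ y' : ZMod N, dd (T x' y) =
      (N : ℝ) ^ 2 * ∑ x, ∑ y, dd (T x y) := by
    simp only [Finset.sum_const, Finset.card_univ, nsmul_eq_mul, hc, ← Finset.mul_sum]
    ring
  have e3 : ∑ x : ZMod N, ∑ x' : ZMod N, ∑ y : ZMod N, ∑ y' : ZMod N, dd (T x y') =
      (N : ℝ) ^ 2 * ∑ x, ∑ y, dd (T x y) := by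
    simp only [Finset.sum_const, Finset.card_univ, nsmul_eq_mul, hc, ← Finset.mul_sum]
    ring
  have e4 : ∑ x : ZMod N, ∑ x' : ZMod N, ∑ y : ZMod N, ∑ y' : ZMod N, dd (T x' y') =
      (N : ℝ) ^ 2 * ∑ x, ∑ y, dd (T x y) := by
    simp only [Finset.sum_const, Finset.card_univ, nsmul_eq_mul, hc, ← Finset.mul_sum]
    ring
  simp only [Finset.sum_add_distrib]
  rw [e1, e2, e3, e4]
  ring

lemma sum_ind {N : ℕ} [NeZero N] (B B' : Finset (ZMod N)) [DecidableEq (ZMod N)] :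
    ∑ x : ZMod N, ∑ x' : ZMod N, ∑ y : ZMod N, ∑ y' : ZMod N,
      (((if x ∈ B' then (4 : ℝ) else 0) + (if x' ∈ B' then (4 : ℝ) else 0)) +
        ((if y ∈ B then (4 : ℝ) else 0) + (if y' ∈ B then (4 : ℝ) else 0))) =
      8 * (N : ℝ) ^ 3 * (B'.card + B.card) := by
  have hc : (Fintype.card (ZMod N) : ℝ) = N := by rw [ZMod.card]
  have h5 : ∀ B : Finset (ZMod N), ∑ y : ZMod N, (if y ∈ B then (4 : ℝ) else 0) = 4 * B.card := by
    intro B
    rw [← Finset.sum_filter]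
    simp [mul_comm]
  simp only [Finset.sum_add_distrib, Finset.sum_const, Finset.card_univ, nsmul_eq_mul, hc,
    ← Finset.mul_sum, h5]
  ring

/-- Steps 4 and 5: the square of the slope is an integer. -/
theorem slope_sq {N : ℕ} [NeZero N] (P : ℤ) (θ₁ θ₂ : ℝ) (al be : ZMod N → ℝ) (ra sb : ZMod N → ℤ)
    (hal : ∀ x, al x = P * ee x + θ₁ + ra x) (hbe : ∀ y, be y = P * ee y + θ₂ + sb y)
    (ζ ω : ZMod N → ℝ) (rho sigma : ZMod N → ℤ) (δ₁ δ₃ : ℝ)
    (h1 : ∑ x, ∑ y, dd (TT ζ ω rho sigma al be x y) ≤ δ₁ * (N : ℝ) ^ 2)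
    (κ κ' : ℝ) (B B' : Finset (ZMod N))
    (hB : (B.card : ℝ) ≤ δ₃ * N) (hB' : (B'.card : ℝ) ≤ δ₃ * N)
    (hR : ∀ y, y ∉ B → ∃ n : ℤ, (rho y / N + P / N * be y : ℝ) = κ + n)
    (hS : ∀ x, x ∉ B' → ∃ n : ℤ, (sigma x / N + P / N * al x : ℝ) = κ' + n)
    (hδ : 16 * δ₁ + 16 * δ₃ < 1) (h3 : 2 * δ₃ < 1) :
    ∃ m : ℤ, P ^ 2 = (N : ℤ) ^ 2 * m := by
  classical
  have hN : (0 : ℝ) < N := Nat.cast_pos.mpr (NeZero.pos N)
  have hN' : (N : ℝ) ≠ 0 := hN.ne'
  obtain ⟨M, hM⟩ := step4 P θ₂ be sb hbe rho κ δ₃ B hB hR h3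
  have hM' : (P : ℝ) ^ 2 = N * M := by exact_mod_cast hM
  by_cases hNM : (N : ℤ) ∣ M
  · obtain ⟨m, rfl⟩ := hNM
    exact ⟨m, by rw [hM]; ring⟩
  exfalso
  obtain ⟨T, hT⟩ : ∃ T : ZMod N → ZMod N → ℝ, ∀ x y, T x y = TT ζ ω rho sigma al be x y :=
    ⟨_, fun _ _ => rfl⟩
  simp only [← hT] at h1
  obtain ⟨F, hF⟩ : ∃ F : ZMod N → ZMod N → ZMod N → ZMod N → ℝ, ∀ x x' y y',
      F x x' y y' = dd ((M : ℝ) * ((x.val : ℝ) - x'.val) * (ee y - ee y')) :=
    ⟨_, fun _ _ _ _ => rfl⟩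
  have hcN : (Fintype.card (ZMod N) : ℝ) = N := by rw [ZMod.card]
  -- upper bound
  have hup : ∀ x x' y y', F x x' y y' ≤
      4 * (dd (T x y) + dd (T x' y) + dd (T x y') + dd (T x' y')) +
      (((if x ∈ B' then (4 : ℝ) else 0) + (if x' ∈ B' then (4 : ℝ) else 0)) +
        ((if y ∈ B then (4 : ℝ) else 0) + (if y' ∈ B then (4 : ℝ) else 0))) := by
    intro x x' y y'
    have hnn : 0 ≤ 4 * (dd (T x y) + dd (T x' y) + dd (T x y') + dd (T x' y')) := by
      have := dd_nonneg (T x y)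
      have := dd_nonneg (T x' y)
      have := dd_nonneg (T x y')
      have := dd_nonneg (T x' y')
      positivity
    have hi : ∀ (z : ZMod N) (C : Finset (ZMod N)), 0 ≤ (if z ∈ C then (4 : ℝ) else 0) := by
      intro z C
      split_ifs <;> norm_num
    have h4 : F x x' y y' ≤ 4 := by
      rw [hF]
      exact dd_le_four _
    by_cases g1 : x ∈ B'
    · have e : (if x ∈ B' then (4 : ℝ) else 0) = 4 := if_pos g1
      have := hi x' B'
      have := hi y B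
      have := hi y' B
      rw [e]
      linarith
    by_cases g2 : x' ∈ B'
    · have e : (if x' ∈ B' then (4 : ℝ) else 0) = 4 := if_pos g2
      have := hi x B'
      have := hi y B
      have := hi y' B
      rw [e]
      linarith
    by_cases g3 : y ∈ B
    · have e : (if y ∈ B then (4 : ℝ) else 0) = 4 := if_pos g3
      have := hi x B'
      have := hi x' B'
      have := hi y' B
      rw [e]
      linarith
    by_cases g4 : y' ∈ B
    · have e : (if y' ∈ B then (4 : ℝ) else 0) = 4 := if_pos g4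
      have := hi x B'
      have := hi x' B'
      have := hi y B
      rw [e]
      linarith
    rw [if_neg g1, if_neg g2, if_neg g3, if_neg g4]
    obtain ⟨m, hm⟩ := hS x g1
    obtain ⟨m', hm'⟩ := hS x' g2
    obtain ⟨n, hn⟩ := hR y g3
    obtain ⟨n', hn'⟩ := hR y' g4
    have h5 := dd_add4_le (T x y) (-T x' y) (-T x y') (T x' y')
    rw [dd_neg, dd_neg] at h5
    have h6 : F x x' y y' = dd (T x y + -T x' y + -T x y' + T x' y') := by
      rw [hF, ← dd_neg]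
      refine (dd_congr ((n - n') * ((x.val : ℤ) - x'.val) + (m - m') * ((y.val : ℤ) - y'.val) +
        (ra x - ra x') * (sb y - sb y')) ?_).symm
      rw [hT, hT, hT, hT]
      unfold TT
      have q1 : (rho y : ℝ) - rho y' = N * (n - n') - P * (be y - be y') := by
        field_simp at hn hn'
        linarith
      have q2 : (sigma x : ℝ) - sigma x' = N * (m - m') - P * (al x - al x') := by
        field_simp at hm hm'
        linarith
      have q3 : (N : ℝ) * (ee x - ee x') = x.val - x'.val := by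
        unfold ee
        field_simp
      have q4 : (N : ℝ) * (ee y - ee y') = y.val - y'.val := by
        unfold ee
        field_simp
      have q5 : al x - al x' = P * (ee x - ee x') + (ra x - ra x') := by
        rw [hal, hal]
        ring
      have q6 : be y - be y' = P * (ee y - ee y') + (sb y - sb y') := by
        rw [hbe, hbe]
        ring
      push_cast
      have q7 : (ζ y + ω x + rho y * ee x + sigma x * ee y + al x * be y) +
          -(ζ y + ω x' + rho y * ee x' + sigma x' * ee y + al x' * be y) +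
          -(ζ y' + ω x + rho y' * ee x + sigma x * ee y' + al x * be y') +
          (ζ y' + ω x' + rho y' * ee x' + sigma x' * ee y' + al x' * be y') =
          ((rho y : ℝ) - rho y') * (ee x - ee x') + ((sigma x : ℝ) - sigma x') * (ee y - ee y') +
          (al x - al x') * (be y - be y') := by ring
      rw [q7, q1, q2, q5, q6, ← q3, ← q4]
      linear_combination (-(ee x - ee x') * (ee y - ee y')) * hM'
    rw [h6]
    linarith
  have hup' : ∑ x, ∑ x', ∑ y, ∑ y', F x x' y y' ≤ (16 * δ₁ + 16 * δ₃) * (N : ℝ) ^ 4 := by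
    have h7 : ∑ x, ∑ x', ∑ y, ∑ y', F x x' y y' ≤ ∑ x : ZMod N, ∑ x' : ZMod N, ∑ y : ZMod N,
        ∑ y' : ZMod N, (4 * (dd (T x y) + dd (T x' y) + dd (T x y') + dd (T x' y')) +
      (((if x ∈ B' then (4 : ℝ) else 0) + (if x' ∈ B' then (4 : ℝ) else 0)) +
        ((if y ∈ B then (4 : ℝ) else 0) + (if y' ∈ B then (4 : ℝ) else 0)))) :=
      Finset.sum_le_sum fun x _ => Finset.sum_le_sum fun x' _ => Finset.sum_le_sum fun y _ =>
        Finset.sum_le_sum fun y' _ => hup x x' y y'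
    have h8 : ∑ x : ZMod N, ∑ x' : ZMod N, ∑ y : ZMod N,
        ∑ y' : ZMod N, (4 * (dd (T x y) + dd (T x' y) + dd (T x y') + dd (T x' y')) +
      (((if x ∈ B' then (4 : ℝ) else 0) + (if x' ∈ B' then (4 : ℝ) else 0)) +
        ((if y ∈ B then (4 : ℝ) else 0) + (if y' ∈ B then (4 : ℝ) else 0)))) =
        4 * (4 * (N : ℝ) ^ 2 * ∑ x, ∑ y, dd (T x y)) + 8 * (N : ℝ) ^ 3 * (B'.card + B.card) := by
      rw [← sum4, ← sum_ind B B']
      simp only [Finset.sum_add_distrib, ← Finset.mul_sum]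
    rw [h8] at h7
    refine h7.trans ?_
    have h9 : 4 * (4 * (N : ℝ) ^ 2 * ∑ x, ∑ y, dd (T x y)) ≤
        4 * (4 * (N : ℝ) ^ 2 * (δ₁ * (N : ℝ) ^ 2)) := by gcongr
    have h10 : 8 * (N : ℝ) ^ 3 * (B'.card + B.card) ≤ 8 * (N : ℝ) ^ 3 * (δ₃ * N + δ₃ * N) := by
      gcongr
    refine (add_le_add h9 h10).trans (le_of_eq ?_)
    ring
  -- lower bound
  have hlow1 : ∀ x x' : ZMod N, ¬ (N : ℤ) ∣ M * ((x.val : ℤ) - x'.val) → ∀ y',
      ∑ y, F x x' y y' = 2 * N := by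
    intro x x' hx y'
    rw [← char_sum' _ hx (-(M * ((x.val : ℝ) - x'.val) * ee y'))]
    refine Finset.sum_congr rfl fun y _ => ?_
    rw [hF]
    congr 1
    push_cast
    ring
  have hlow2 : ∀ x' : ZMod N, (N : ℝ) / 2 ≤
      ∑ x : ZMod N, (if (N : ℤ) ∣ M * ((x.val : ℤ) - x'.val) then (0 : ℝ) else 1) := by
    intro x'
    have h11 := char_sum' M hNM (-(M * ee x'))
    have h12 : ∑ x : ZMod N, dd ((M : ℝ) * ee x + -(M * ee x')) ≤
        ∑ x : ZMod N, 4 * (if (N : ℤ) ∣ M * ((x.val : ℤ) - x'.val) then (0 : ℝ) else 1) := by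
      refine Finset.sum_le_sum fun x _ => ?_
      split_ifs with hd
      · obtain ⟨k, hk⟩ := hd
        have hk' : (M : ℝ) * ((x.val : ℝ) - x'.val) = N * k := by exact_mod_cast hk
        refine le_of_eq ?_
        rw [mul_zero, ← dd_int k]
        congr 1
        unfold ee
        field_simp
        linarith
      · have := dd_le_four ((M : ℝ) * ee x + -(M * ee x'))
        linarith
    rw [h11, ← Finset.mul_sum] at h12
    linarith
  have hlow3 : ∀ x x' : ZMod N, 2 * (N : ℝ) ^ 2 *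
      (if (N : ℤ) ∣ M * ((x.val : ℤ) - x'.val) then (0 : ℝ) else 1) ≤ ∑ y, ∑ y', F x x' y y' := by
    intro x x'
    split_ifs with hd
    · rw [mul_zero]
      refine Finset.sum_nonneg fun y _ => Finset.sum_nonneg fun y' _ => ?_
      rw [hF]
      exact dd_nonneg _
    · rw [Finset.sum_comm, Finset.sum_congr rfl fun y' _ => hlow1 x x' hd y', Finset.sum_const,
        Finset.card_univ, nsmul_eq_mul, hcN]
      refine le_of_eq ?_
      ring
  have hlow : (N : ℝ) ^ 4 ≤ ∑ x, ∑ x', ∑ y, ∑ y', F x x' y y' := by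
    rw [Finset.sum_comm]
    have h13 : ∑ x' : ZMod N, ∑ x : ZMod N, 2 * (N : ℝ) ^ 2 *
        (if (N : ℤ) ∣ M * ((x.val : ℤ) - x'.val) then (0 : ℝ) else 1) ≤
        ∑ x', ∑ x, ∑ y, ∑ y', F x x' y y' :=
      Finset.sum_le_sum fun x' _ => Finset.sum_le_sum fun x _ => hlow3 x x'
    refine le_trans ?_ h13
    have h14 : ∑ x' : ZMod N, 2 * (N : ℝ) ^ 2 * ((N : ℝ) / 2) ≤ ∑ x' : ZMod N, ∑ x : ZMod N,
        2 * (N : ℝ) ^ 2 * (if (N : ℤ) ∣ M * ((x.val : ℤ) - x'.val) then (0 : ℝ) else 1) := by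
      refine Finset.sum_le_sum fun x' _ => ?_
      rw [← Finset.mul_sum]
      exact mul_le_mul_of_nonneg_left (hlow2 x') (by positivity)
    refine le_trans (le_of_eq ?_) h14
    rw [Finset.sum_const, Finset.card_univ, nsmul_eq_mul, hcN]
    ring
  have h15 : 1 * (N : ℝ) ^ 4 ≤ (16 * δ₁ + 16 * δ₃) * (N : ℝ) ^ 4 := by
    rw [one_mul]
    exact hlow.trans hup'
  have h16 := le_of_mul_le_mul_right h15 (by positivity)
  linarith

lemma blr' {N : ℕ} [NeZero N] (u v w : ZMod N → ℝ) (δ : ℝ)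
    (h : ∑ x : ZMod N, ∑ z : ZMod N, dd (u x + v z - w (x + z)) ≤ δ * (N : ℝ) ^ 2) :
    ∃ (k : ℤ) (θ₁ θ₂ : ℝ),
      ∑ x : ZMod N, dd (u x - k * ee x - θ₁) ≤ δ * N ∧
      ∑ x : ZMod N, dd (v x - k * ee x - θ₂) ≤ 4 * δ * N := by
  obtain ⟨k, θ₁, θ₂, h1, h2⟩ := Pool.Agent.H87.MS.blr u v w δ h
  refine ⟨k, θ₁, θ₂, ?_, ?_⟩
  · simpa only [ee, mul_div_assoc] using h1
  · simpa only [ee, mul_div_assoc] using h2

/-- BLR for a family. -/
lemma blr_rows {N : ℕ} [NeZero N] (u v w : ZMod N → ZMod N → ℝ) (δ : ℝ)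
    (h : ∑ y : ZMod N, ∑ x : ZMod N, ∑ z : ZMod N, dd (u y x + v y z - w y (x + z)) ≤
      δ * (N : ℝ) ^ 3) :
    ∃ (rho : ZMod N → ℤ) (ζ : ZMod N → ℝ),
      ∑ y, ∑ x : ZMod N, dd (u y x - rho y * ee x - ζ y) ≤ δ * (N : ℝ) ^ 2 := by
  have hN : (0 : ℝ) < N := Nat.cast_pos.mpr (NeZero.pos N)
  have h1 : ∀ y, ∃ (k : ℤ) (θ : ℝ), ∑ x : ZMod N, dd (u y x - k * ee x - θ) ≤
      ((∑ x : ZMod N, ∑ z : ZMod N, dd (u y x + v y z - w y (x + z))) / (N : ℝ) ^ 2) * N := by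
    intro y
    obtain ⟨k, θ, _, h2, _⟩ := blr' (u y) (v y) (w y)
      ((∑ x : ZMod N, ∑ z : ZMod N, dd (u y x + v y z - w y (x + z))) / (N : ℝ) ^ 2)
      (le_of_eq (by field_simp))
    exact ⟨k, θ, h2⟩
  choose rho ζ hr using h1
  refine ⟨rho, ζ, ?_⟩
  refine (Finset.sum_le_sum fun y _ => hr y).trans ?_
  rw [← Finset.sum_mul, ← Finset.sum_div]
  calc (∑ y : ZMod N, ∑ x : ZMod N, ∑ z : ZMod N, dd (u y x + v y z - w y (x + z))) / (N : ℝ) ^ 2 * N
      ≤ (δ * (N : ℝ) ^ 3) / (N : ℝ) ^ 2 * N := by gcongr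
    _ = δ * (N : ℝ) ^ 2 := by field_simp

lemma ee_add_one {N : ℕ} [NeZero N] (x : ZMod N) : ∃ j : ℤ, ee (x + 1) = ee x + 1 / N + j := by
  have hN' : (N : ℝ) ≠ 0 := Nat.cast_ne_zero.mpr (NeZero.ne N)
  obtain ⟨j, hj⟩ := ee_add x 1
  obtain ⟨c, hc⟩ : ∃ c : ℕ, 1 % N + N * c = 1 := ⟨_, Nat.mod_add_div 1 N⟩
  refine ⟨j - c, ?_⟩
  rw [hj]
  have h1 : (1 : ZMod N).val = 1 % N := ZMod.val_one_eq_one_mod N
  unfold ee
  rw [h1]
  have hc' : ((1 % N : ℕ) : ℝ) + N * c = 1 := by exact_mod_cast hc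
  push_cast
  field_simp
  linarith

/-- The increment of an almost linear function. -/
lemma incr {N : ℕ} [NeZero N] (u : ZMod N → ℝ) (k : ℤ) (θ t : ℝ) :
    N * dd (k / N + t) ≤ 3 * (∑ x, dd (u (x + 1) - u x + t) + 2 * ∑ x, dd (u x - k * ee x - θ)) := by
  have h1 : ∀ x, dd (k / N + t) ≤ 3 * (dd (u (x + 1) - u x + t) +
      dd (u (x + 1) - k * ee (x + 1) - θ) + dd (u x - k * ee x - θ)) := by
    intro x
    obtain ⟨j, hj⟩ := ee_add_one x
    have h2 := dd_add3_le (u (x + 1) - u x + t) (-(u (x + 1) - k * ee (x + 1) - θ))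
      (u x - k * ee x - θ)
    rw [dd_neg] at h2
    refine le_trans (le_of_eq ?_) h2
    refine dd_congr (-(k * j)) ?_
    rw [hj]
    push_cast
    ring
  have h2 : ∑ x : ZMod N, dd (k / N + t) ≤ ∑ x, 3 * (dd (u (x + 1) - u x + t) +
      dd (u (x + 1) - k * ee (x + 1) - θ) + dd (u x - k * ee x - θ)) :=
    Finset.sum_le_sum fun x _ => h1 x
  rw [Finset.sum_const, Finset.card_univ, nsmul_eq_mul, ZMod.card, ← Finset.mul_sum,
    Finset.sum_add_distrib, Finset.sum_add_distrib,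
    sum_shift (fun x => dd (u x - k * ee x - θ))] at h2
  linarith

lemma incr_rows {N : ℕ} [NeZero N] (u : ZMod N → ZMod N → ℝ) (rho : ZMod N → ℤ) (ζ t : ZMod N → ℝ)
    (δ : ℝ) (h1 : ∑ y, ∑ x : ZMod N, dd (u y x - rho y * ee x - ζ y) ≤ δ * (N : ℝ) ^ 2)
    (h2 : ∑ y, ∑ x : ZMod N, dd (u y (x + 1) - u y x + t y) ≤ δ * (N : ℝ) ^ 2) :
    ∑ y : ZMod N, dd (rho y / N + t y) ≤ 9 * δ * N := by
  have hN : (0 : ℝ) < N := Nat.cast_pos.mpr (NeZero.pos N)
  have h3 : ∑ y : ZMod N, N * dd (rho y / N + t y) ≤ ∑ y : ZMod N,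
      3 * (∑ x, dd (u y (x + 1) - u y x + t y) + 2 * ∑ x, dd (u y x - rho y * ee x - ζ y)) :=
    Finset.sum_le_sum fun y _ => incr (u y) (rho y) (ζ y) (t y)
  rw [← Finset.mul_sum, ← Finset.mul_sum, Finset.sum_add_distrib, ← Finset.mul_sum] at h3
  have h4 : (N : ℝ) * ∑ y : ZMod N, dd (rho y / N + t y) ≤ N * (9 * δ * N) := by nlinarith
  exact le_of_mul_le_mul_left h4 hN

/-- The nearest affine lift. -/
lemma nearest {N : ℕ} [NeZero N] (a : ZMod N → ℝ) (ha : ∀ x, 0 ≤ a x ∧ a x ≤ 1) (k m : ℤ)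
    (θ δ : ℝ) (h : ∑ x, dd (a x - k * ee x - θ) ≤ δ * N) :
    ∃ (al : ZMod N → ℝ) (ra : ZMod N → ℤ),
      (∀ x, al x = ((k - m * N : ℤ) : ℝ) * ee x + θ + ra x) ∧ (∀ x, (al x) ^ 2 ≤ 9 / 4) ∧
      ∑ x, (al x - a x) ^ 2 ≤ δ / 16 * N := by
  have hN' : (N : ℝ) ≠ 0 := Nat.cast_ne_zero.mpr (NeZero.ne N)
  refine ⟨fun x => ((k - m * N : ℤ) : ℝ) * ee x + θ + round (a x - ((k - m * N : ℤ) : ℝ) * ee x - θ),
    fun x => round (a x - ((k - m * N : ℤ) : ℝ) * ee x - θ), fun x => rfl, fun x => ?_, ?_⟩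
  · have h1 := abs_sub_round (a x - ((k - m * N : ℤ) : ℝ) * ee x - θ)
    obtain ⟨h2, h3⟩ := ha x
    rw [abs_le] at h1
    nlinarith
  · have h4 : ∀ x, (((k - m * N : ℤ) : ℝ) * ee x + θ +
        round (a x - ((k - m * N : ℤ) : ℝ) * ee x - θ) - a x) ^ 2 ≤
        1 / 16 * dd (a x - k * ee x - θ) := by
      intro x
      have h5 := sq_le_dd_round (a x - ((k - m * N : ℤ) : ℝ) * ee x - θ)
      have h6 : dd (a x - ((k - m * N : ℤ) : ℝ) * ee x - θ) = dd (a x - k * ee x - θ) := by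
        refine dd_congr (m * x.val) ?_
        unfold ee
        push_cast
        field_simp
        ring
      rw [h6] at h5
      nlinarith
    refine (Finset.sum_le_sum fun x _ => h4 x).trans ?_
    rw [← Finset.mul_sum]
    linarith

/-- The robust theorem. -/
theorem robust : ∃ δ : ℝ, 0 < δ ∧ ∀ (N : ℕ) [NeZero N] (a1 a2 a3 : ZMod N → ℝ)
    (c1 c2 c3 b2 b3 : ZMod N → ZMod N → ℝ),
    (∀ x, 0 ≤ a1 x ∧ a1 x ≤ 1) → (∀ x, 0 ≤ a2 x ∧ a2 x ≤ 1) →
    δ * (N : ℝ) ^ 3 < ∑ x : ZMod N, ∑ y : ZMod N, ∑ z : ZMod N,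
      defect a1 a2 a3 c1 c2 c3 b2 b3 x y z := by
  refine ⟨1 / 100000, by norm_num, ?_⟩
  intro N _ a1 a2 a3 c1 c2 c3 b2 b3 ha1 ha2
  by_contra hcon
  rw [not_lt] at hcon
  obtain ⟨δ, hδ⟩ : ∃ δ : ℝ, δ = 1 / 100000 := ⟨_, rfl⟩
  rw [← hδ] at hcon
  have hN : (0 : ℝ) < N := Nat.cast_pos.mpr (NeZero.pos N)
  have hN' : (N : ℝ) ≠ 0 := hN.ne'
  have hcN : (Fintype.card (ZMod N) : ℝ) = N := by rw [ZMod.card]
  obtain ⟨b1, hb1⟩ : ∃ b1 : ZMod N → ZMod N → ℝ, ∀ x y, b1 x y = - c1 x y - a1 x * a2 y :=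
    ⟨_, fun _ _ => rfl⟩
  -- the six sums
  have hle : ∀ (D : ZMod N → ZMod N → ZMod N → ℝ), (∀ x y z, D x y z ≤
      defect a1 a2 a3 c1 c2 c3 b2 b3 x y z) → ∑ x, ∑ y, ∑ z, D x y z ≤ δ * (N : ℝ) ^ 3 := by
    intro D hD
    refine le_trans ?_ hcon
    exact Finset.sum_le_sum fun x _ => Finset.sum_le_sum fun y _ => Finset.sum_le_sum fun z _ =>
      hD x y z
  have hA3 := hle (fun x y z => dd (a1 x + a2 y - a3 (x + y))) (by
    intro x y z
    unfold defect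
    have := dd_nonneg (a1 (x + 1) - a1 x - Real.sqrt 2)
    have := dd_nonneg (c1 x y + c2 z y - c3 (x + z) y)
    have := dd_nonneg ((- c1 x y - a1 x * a2 y) + b2 x z - b3 x (y + z))
    have := dd_nonneg (c1 (x + 1) y - c1 x y + Real.sqrt 2 * a2 y)
    have := dd_nonneg ((- c1 x (y + 1) - a1 x * a2 (y + 1)) - (- c1 x y - a1 x * a2 y) +
      Real.sqrt 2 * a1 x)
    linarith)
  have hA'3 := hle (fun x y z => dd (a1 (x + 1) - a1 x - Real.sqrt 2)) (by
    intro x y z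
    unfold defect
    have := dd_nonneg (a1 x + a2 y - a3 (x + y))
    have := dd_nonneg (c1 x y + c2 z y - c3 (x + z) y)
    have := dd_nonneg ((- c1 x y - a1 x * a2 y) + b2 x z - b3 x (y + z))
    have := dd_nonneg (c1 (x + 1) y - c1 x y + Real.sqrt 2 * a2 y)
    have := dd_nonneg ((- c1 x (y + 1) - a1 x * a2 (y + 1)) - (- c1 x y - a1 x * a2 y) +
      Real.sqrt 2 * a1 x)
    linarith)
  have hC3 := hle (fun x y z => dd (c1 x y + c2 z y - c3 (x + z) y)) (by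
    intro x y z
    unfold defect
    have := dd_nonneg (a1 x + a2 y - a3 (x + y))
    have := dd_nonneg (a1 (x + 1) - a1 x - Real.sqrt 2)
    have := dd_nonneg ((- c1 x y - a1 x * a2 y) + b2 x z - b3 x (y + z))
    have := dd_nonneg (c1 (x + 1) y - c1 x y + Real.sqrt 2 * a2 y)
    have := dd_nonneg ((- c1 x (y + 1) - a1 x * a2 (y + 1)) - (- c1 x y - a1 x * a2 y) +
      Real.sqrt 2 * a1 x)
    linarith)
  have hB3 := hle (fun x y z => dd (b1 x y + b2 x z - b3 x (y + z))) (by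
    intro x y z
    unfold defect
    rw [hb1]
    have := dd_nonneg (a1 x + a2 y - a3 (x + y))
    have := dd_nonneg (a1 (x + 1) - a1 x - Real.sqrt 2)
    have := dd_nonneg (c1 x y + c2 z y - c3 (x + z) y)
    have := dd_nonneg (c1 (x + 1) y - c1 x y + Real.sqrt 2 * a2 y)
    have := dd_nonneg ((- c1 x (y + 1) - a1 x * a2 (y + 1)) - (- c1 x y - a1 x * a2 y) +
      Real.sqrt 2 * a1 x)
    linarith)
  have hI3 := hle (fun x y z => dd (c1 (x + 1) y - c1 x y + Real.sqrt 2 * a2 y)) (by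
    intro x y z
    unfold defect
    have := dd_nonneg (a1 x + a2 y - a3 (x + y))
    have := dd_nonneg (a1 (x + 1) - a1 x - Real.sqrt 2)
    have := dd_nonneg (c1 x y + c2 z y - c3 (x + z) y)
    have := dd_nonneg ((- c1 x y - a1 x * a2 y) + b2 x z - b3 x (y + z))
    have := dd_nonneg ((- c1 x (y + 1) - a1 x * a2 (y + 1)) - (- c1 x y - a1 x * a2 y) +
      Real.sqrt 2 * a1 x)
    linarith)
  have hJ3 := hle (fun x y z => dd (b1 x (y + 1) - b1 x y + Real.sqrt 2 * a1 x)) (by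
    intro x y z
    unfold defect
    rw [hb1, hb1]
    have := dd_nonneg (a1 x + a2 y - a3 (x + y))
    have := dd_nonneg (a1 (x + 1) - a1 x - Real.sqrt 2)
    have := dd_nonneg (c1 x y + c2 z y - c3 (x + z) y)
    have := dd_nonneg ((- c1 x y - a1 x * a2 y) + b2 x z - b3 x (y + z))
    have := dd_nonneg (c1 (x + 1) y - c1 x y + Real.sqrt 2 * a2 y)
    linarith)
  -- two dimensional forms
  have hA : ∑ x, ∑ y, dd (a1 x + a2 y - a3 (x + y)) ≤ δ * (N : ℝ) ^ 2 := by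
    simp only [Finset.sum_const, Finset.card_univ, nsmul_eq_mul, hcN, ← Finset.mul_sum] at hA3
    have : (N : ℝ) * ∑ x, ∑ y, dd (a1 x + a2 y - a3 (x + y)) ≤ N * (δ * (N : ℝ) ^ 2) := by
      refine hA3.trans (le_of_eq (by ring))
    exact le_of_mul_le_mul_left this hN
  have hA' : ∑ x, dd (a1 (x + 1) - a1 x - Real.sqrt 2) ≤ δ * N := by
    simp only [Finset.sum_const, Finset.card_univ, nsmul_eq_mul, hcN, ← Finset.mul_sum] at hA'3
    have : ((N : ℝ) * N) * ∑ x, dd (a1 (x + 1) - a1 x - Real.sqrt 2) ≤ (N * N) * (δ * N) := by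
      refine le_trans (le_of_eq (by ring)) (hA'3.trans (le_of_eq (by ring)))
    exact le_of_mul_le_mul_left this (by positivity)
  have hI : ∑ y, ∑ x, dd (c1 (x + 1) y - c1 x y + Real.sqrt 2 * a2 y) ≤ δ * (N : ℝ) ^ 2 := by
    simp only [Finset.sum_const, Finset.card_univ, nsmul_eq_mul, hcN, ← Finset.mul_sum] at hI3
    rw [Finset.sum_comm]
    have : (N : ℝ) * ∑ x, ∑ y, dd (c1 (x + 1) y - c1 x y + Real.sqrt 2 * a2 y) ≤
        N * (δ * (N : ℝ) ^ 2) := by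
      refine hI3.trans (le_of_eq (by ring))
    exact le_of_mul_le_mul_left this hN
  have hJ : ∑ x, ∑ y, dd (b1 x (y + 1) - b1 x y + Real.sqrt 2 * a1 x) ≤ δ * (N : ℝ) ^ 2 := by
    simp only [Finset.sum_const, Finset.card_univ, nsmul_eq_mul, hcN, ← Finset.mul_sum] at hJ3
    have : (N : ℝ) * ∑ x, ∑ y, dd (b1 x (y + 1) - b1 x y + Real.sqrt 2 * a1 x) ≤
        N * (δ * (N : ℝ) ^ 2) := by
      refine hJ3.trans (le_of_eq (by ring))
    exact le_of_mul_le_mul_left this hN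
  rw [Finset.sum_comm] at hC3
  -- step 1
  obtain ⟨k, θ₁, θ₂, hk1, hk2⟩ := blr' a1 a2 a3 δ hA
  obtain ⟨rho, ζ, hrho⟩ := blr_rows (fun y x => c1 x y) (fun y z => c2 z y) (fun y t => c3 t y) δ hC3
  obtain ⟨sigma, ω, hsig⟩ := blr_rows b1 b2 b3 δ hB3
  -- the slope
  have hsl : dd ((k : ℝ) / N + -Real.sqrt 2) ≤ 9 * δ := by
    have h1 := incr a1 k θ₁ (-Real.sqrt 2)
    have h2 : (N : ℝ) * dd ((k : ℝ) / N + -Real.sqrt 2) ≤ N * (9 * δ) := by
      simp only [← sub_eq_add_neg] at h1 ⊢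
      linarith
    exact le_of_mul_le_mul_left h2 hN
  have hsl2 := (sq_le_dd_round ((k : ℝ) / N + -Real.sqrt 2)).trans hsl
  obtain ⟨m, hm⟩ : ∃ m : ℤ, m = round ((k : ℝ) / N + -Real.sqrt 2) := ⟨_, rfl⟩
  rw [← hm] at hsl2
  obtain ⟨al, ra, hal, hal2, hal3⟩ := nearest a1 ha1 k m θ₁ δ hk1
  obtain ⟨be, sb, hbe, hbe2, hbe3⟩ := nearest a2 ha2 k m θ₂ (4 * δ) hk2
  obtain ⟨P, hP⟩ : ∃ P : ℤ, P = k - m * N := ⟨_, rfl⟩
  rw [← hP] at hal hbe
  have hPN : ((P : ℝ) / N - Real.sqrt 2) ^ 2 ≤ 9 / 16 * δ := by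
    have : (P : ℝ) / N - Real.sqrt 2 = (k : ℝ) / N + -Real.sqrt 2 - m := by
      rw [hP]
      push_cast
      field_simp
      ring
    rw [this]
    linarith
  have h22 : Real.sqrt 2 ^ 2 = 2 := Real.sq_sqrt (by norm_num)
  -- the bilinear expression
  have hT : ∑ x, ∑ y, dd (TT ζ ω rho sigma al be x y) ≤ (102 * δ) * (N : ℝ) ^ 2 := by
    have e1 : ∀ x y, dd (TT ζ ω rho sigma al be x y) ≤
        3 * (dd (c1 x y - rho y * ee x - ζ y) + dd (b1 x y - sigma x * ee y - ω x) +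
          80 * ((al x - a1 x) ^ 2 * (9 / 4) + (be y - a2 y) ^ 2)) := by
      intro x y
      have e2 := dd_add3_le (-(c1 x y - rho y * ee x - ζ y)) (-(b1 x y - sigma x * ee y - ω x))
        (al x * be y - a1 x * a2 y)
      have e3 : -(c1 x y - rho y * ee x - ζ y) + -(b1 x y - sigma x * ee y - ω x) +
          (al x * be y - a1 x * a2 y) = TT ζ ω rho sigma al be x y := by
        rw [hb1]
        unfold TT
        ring
      rw [e3, dd_neg, dd_neg] at e2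
      have e4 := dd_le_sq (al x * be y - a1 x * a2 y)
      have e5 : (al x * be y - a1 x * a2 y) ^ 2 ≤
          2 * ((al x - a1 x) ^ 2 * (9 / 4) + (be y - a2 y) ^ 2) := by
        have f1 : al x * be y - a1 x * a2 y = (al x - a1 x) * be y + a1 x * (be y - a2 y) := by ring
        have f2 : ((al x - a1 x) * be y) ^ 2 ≤ (al x - a1 x) ^ 2 * (9 / 4) := by
          rw [mul_pow]
          exact mul_le_mul_of_nonneg_left (hbe2 y) (sq_nonneg _)
        have f3 : (a1 x * (be y - a2 y)) ^ 2 ≤ (be y - a2 y) ^ 2 := by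
          rw [mul_pow]
          have : a1 x ^ 2 ≤ 1 := by
            obtain ⟨g1, g2⟩ := ha1 x
            nlinarith
          nlinarith [sq_nonneg (be y - a2 y)]
        rw [f1]
        nlinarith [sq_nonneg ((al x - a1 x) * be y - a1 x * (be y - a2 y))]
      linarith
    have e6 : ∑ x, ∑ y, dd (TT ζ ω rho sigma al be x y) ≤ ∑ x : ZMod N, ∑ y : ZMod N,
        3 * (dd (c1 x y - rho y * ee x - ζ y) + dd (b1 x y - sigma x * ee y - ω x) +
          80 * ((al x - a1 x) ^ 2 * (9 / 4) + (be y - a2 y) ^ 2)) :=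
      Finset.sum_le_sum fun x _ => Finset.sum_le_sum fun y _ => e1 x y
    have e7 : ∑ x : ZMod N, ∑ y : ZMod N,
        3 * (dd (c1 x y - rho y * ee x - ζ y) + dd (b1 x y - sigma x * ee y - ω x) +
          80 * ((al x - a1 x) ^ 2 * (9 / 4) + (be y - a2 y) ^ 2)) =
        3 * (∑ x : ZMod N, ∑ y : ZMod N, dd (c1 x y - rho y * ee x - ζ y) +
          ∑ x : ZMod N, ∑ y : ZMod N, dd (b1 x y - sigma x * ee y - ω x) +
          80 * (N * (∑ x, (al x - a1 x) ^ 2 * (9 / 4)) + N * ∑ y, (be y - a2 y) ^ 2)) := by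
      simp only [Finset.sum_add_distrib, Finset.sum_const, Finset.card_univ, nsmul_eq_mul, hcN,
        ← Finset.mul_sum]
    rw [e7, ← Finset.sum_mul] at e6
    refine e6.trans ?_
    have e8 : ∑ x : ZMod N, ∑ y : ZMod N, dd (c1 x y - rho y * ee x - ζ y) ≤ δ * (N : ℝ) ^ 2 := by
      rw [Finset.sum_comm]
      exact hrho
    have e9 : (N : ℝ) * ((∑ x, (al x - a1 x) ^ 2) * (9 / 4)) ≤ N * ((δ / 16 * N) * (9 / 4)) := by
      gcongr
    have e10 : (N : ℝ) * ∑ y, (be y - a2 y) ^ 2 ≤ N * (4 * δ / 16 * N) := by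
      gcongr
    have e11 : 0 ≤ δ * (N : ℝ) ^ 2 := by
      rw [hδ]
      positivity
    nlinarith [hsig]
  -- step 3, preparation
  have hlin : ∀ (a al : ZMod N → ℝ), (∀ x, (al x) ^ 2 ≤ 9 / 4) →
      ∑ x, (al x - a x) ^ 2 ≤ 4 * δ / 16 * N → ∀ rho : ZMod N → ℤ,
      ∑ y : ZMod N, dd (rho y / N + Real.sqrt 2 * a y) ≤ 9 * δ * N →
      ∑ y : ZMod N, dd (rho y / N + P / N * al y) ≤ (302 * δ) * N := by
    intro a al q1 q2 rho q3
    have e1 : ∀ y, dd (rho y / N + P / N * al y) ≤ 2 * (dd (rho y / N + Real.sqrt 2 * a y) +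
        80 * (81 / 64 * δ + 2 * (al y - a y) ^ 2)) := by
      intro y
      have e2 := dd_add_le (rho y / N + Real.sqrt 2 * a y) (P / N * al y - Real.sqrt 2 * a y)
      have e3 : rho y / N + Real.sqrt 2 * a y + (P / N * al y - Real.sqrt 2 * a y) =
          rho y / N + P / N * al y := by ring
      rw [e3] at e2
      have e4 := dd_le_sq (P / N * al y - Real.sqrt 2 * a y)
      have e5 : (P / N * al y - Real.sqrt 2 * a y) ^ 2 ≤
          2 * (81 / 64 * δ + 2 * (al y - a y) ^ 2) := by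
        have f1 : P / N * al y - Real.sqrt 2 * a y =
            (P / N - Real.sqrt 2) * al y + Real.sqrt 2 * (al y - a y) := by ring
        have f2 : ((P / N - Real.sqrt 2) * al y) ^ 2 ≤ 9 / 16 * δ * (9 / 4) := by
          rw [mul_pow]
          have := q1 y
          gcongr
        have f3 : (Real.sqrt 2 * (al y - a y)) ^ 2 = 2 * (al y - a y) ^ 2 := by
          rw [mul_pow, h22]
        rw [f1]
        nlinarith [sq_nonneg ((P / N - Real.sqrt 2) * al y - Real.sqrt 2 * (al y - a y))]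
      linarith
    have e6 := Finset.sum_le_sum fun (y : ZMod N) (_ : y ∈ Finset.univ) => e1 y
    refine e6.trans ?_
    rw [← Finset.mul_sum, Finset.sum_add_distrib, ← Finset.mul_sum, Finset.sum_add_distrib,
      Finset.sum_const, Finset.card_univ, nsmul_eq_mul, hcN, ← Finset.mul_sum]
    have e12 : 0 ≤ δ * (N : ℝ) := by
      rw [hδ]
      positivity
    linarith
  have hR0 := hlin a2 be hbe2 hbe3 rho
    (incr_rows (fun y x => c1 x y) rho ζ (fun y => Real.sqrt 2 * a2 y) δ hrho hI)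
  have hS0 := hlin a1 al hal2 (hal3.trans (by
    have : 0 ≤ δ * (N : ℝ) := by
      rw [hδ]
      positivity
    nlinarith)) sigma (incr_rows b1 sigma ω (fun x => Real.sqrt 2 * a1 x) δ hsig hJ)
  obtain ⟨κ, B, hB, hR⟩ := half P θ₁ θ₂ al be ra sb hal hbe ζ ω rho sigma (102 * δ) (302 * δ) hT hR0
    (by rw [hδ]; norm_num) (by rw [hδ]; norm_num)
  have hT' : ∑ x, ∑ y, dd (TT ω ζ sigma rho be al x y) ≤ (102 * δ) * (N : ℝ) ^ 2 := by
    rw [Finset.sum_comm]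
    refine le_trans (le_of_eq ?_) hT
    refine Finset.sum_congr rfl fun x _ => Finset.sum_congr rfl fun y _ => ?_
    congr 1
    unfold TT
    ring
  obtain ⟨κ', B', hB', hS⟩ := half P θ₂ θ₁ be al sb ra hbe hal ω ζ sigma rho (102 * δ) (302 * δ)
    hT' hS0 (by rw [hδ]; norm_num) (by rw [hδ]; norm_num)
  obtain ⟨q, hq⟩ := slope_sq P θ₁ θ₂ al be ra sb hal hbe ζ ω rho sigma (102 * δ) (32 * (102 * δ)) hT
    κ κ' B B' hB hB' hR hS (by rw [hδ]; norm_num) (by rw [hδ]; norm_num)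
  -- conclusion
  have hq' : ((P : ℝ) / N) ^ 2 = q := by
    have : (P : ℝ) ^ 2 = (N : ℝ) ^ 2 * q := by exact_mod_cast hq
    rw [div_pow, this]
    field_simp
  have hs1 : Real.sqrt 2 < 1.5 := by
    rw [Real.sqrt_lt' (by norm_num)]
    norm_num
  have hs0 : 1.4 < Real.sqrt 2 := by
    rw [Real.lt_sqrt (by norm_num)]
    norm_num
  obtain ⟨v, hv⟩ : ∃ v : ℝ, v = (P : ℝ) / N := ⟨_, rfl⟩
  rw [← hv] at hq' hPN
  have hv1 : |v - Real.sqrt 2| ≤ 1 / 100 := by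
    apply abs_le_of_sq_le_sq _ (by norm_num)
    refine hPN.trans ?_
    rw [hδ]
    norm_num
  rw [abs_le] at hv1
  have hv2 : v < 1.6 := by linarith [hv1.2]
  have hv3 : 1.3 < v := by linarith [hv1.1]
  have hq2 : (q : ℝ) < 3 := by
    rw [← hq']
    calc v ^ 2 < 1.6 ^ 2 := by gcongr
      _ < 3 := by norm_num
  have hq3 : (1 : ℝ) < q := by
    rw [← hq']
    calc (1 : ℝ) < 1.3 ^ 2 := by norm_num
      _ < v ^ 2 := by gcongr
  have hq4 : q = 2 := by
    have i1 : q < 3 := by exact_mod_cast hq2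
    have i2 : 1 < q := by exact_mod_cast hq3
    omega
  rw [hq4] at hq'
  have hirr := irrational_sqrt_two
  apply hirr
  refine ⟨|(P : ℚ) / N|, ?_⟩
  push_cast
  rw [← hv, ← Real.sqrt_sq_eq_abs, hq']
  norm_num

end Pool.Agent.H6.MS
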